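import Pool.Agent.Q133.SQ.Join

set_option autoImplicit false

/-!
# From executions to timelines
-/

namespace Pool.Agent.Q133.SQ

open Pool.Agent.H581R2.Splay Pool.Agent.TH49.Spl Pool.Agent.Q102.SP
open Finset Classical

/-- `Serve T X a b`: some execution for the requests `X` from the tree `T` has search cost `a` and
uses `b` rotations: a request `x` in the current tree costs one plus its depth, and after it the tree
is changed by some rotations (anywhere in the tree). -/
inductive Serve : Tr → List ℕ → ℕ → ℕ → Prop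
  | nil (T : Tr) : Serve T [] 0 0
  | cons (T T' : Tr) (x : ℕ) (X : List ℕ) (e a b : ℕ) :
      RotN e T T' → Serve T' X a b → Serve T (x :: X) (1 + dep x T + a) (e + b)

/-- timelines -/
def TL (T : Tr) (X : List ℕ) (a b : ℕ) : Prop :=
  ∃ (τ : ℕ → Tr) (r : ℕ → ℕ) (R : ℕ), τ 0 = T ∧ Stp τ ∧ (∀ t, r t ≤ r (t + 1)) ∧ (∀ t, r t ≤ R) ∧
    rho τ R ≤ b ∧ a = ∑ t ∈ range X.length, (1 + dep (X.getD t 0) (τ (r t)))

lemma TL_nil (T : Tr) : TL T [] 0 0 :=
  ⟨fun _ => T, fun _ => 0, 0, rfl, fun _ => Or.inl rfl, fun _ => le_rfl, fun _ => le_rfl,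
    by simp [rho], by simp⟩

lemma TL_req {T : Tr} {X : List ℕ} {a b : ℕ} (x : ℕ) (h : TL T X a b) :
    TL T (x :: X) (1 + dep x T + a) b := by
  obtain ⟨τ, r, R, h0, h1, h2, h3, h4, h5⟩ := h
  refine ⟨τ, fun t => Nat.rec 0 (fun k _ => r k) t, R, h0, h1, ?_, ?_, h4, ?_⟩
  · intro t
    cases t with
    | zero => exact Nat.zero_le _
    | succ t => exact h2 t
  · intro t
    cases t with
    | zero => exact Nat.zero_le _
    | succ t => exact h3 t
  · rw [List.length_cons, sum_range_succ']
    simp only [List.getD_cons_succ, List.getD_cons_zero]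
    change _ = _ + (1 + dep x (τ 0))
    rw [h0, h5]
    ring

lemma TL_rot {T T' : Tr} {z : ℕ} (hr : Rot T T' z) {X : List ℕ} {a b : ℕ} (h : TL T' X a b) :
    TL T X a (b + 1) := by
  obtain ⟨τ, r, R, h0, h1, h2, h3, h4, h5⟩ := h
  refine ⟨fun i => Nat.rec T (fun k _ => τ k) i, fun t => r t + 1, R + 1, rfl, ?_, ?_, ?_, ?_, ?_⟩
  · intro i
    cases i with
    | zero => right; exact ⟨z, by simpa [h0] using hr⟩
    | succ i => exact h1 i
  · intro t
    have := h2 t
    simp only
    omega
  · intro t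
    have := h3 t
    simp only
    omega
  · unfold rho at h4 ⊢
    rw [sum_range_succ']
    refine add_le_add ?_ ?_
    · simpa using h4
    · split_ifs <;> omega
  · rw [h5]

lemma TL_rots {e : ℕ} {T T' : Tr} (hr : RotN e T T') {X : List ℕ} {a b : ℕ} (h : TL T' X a b) :
    TL T X a (e + b) := by
  induction hr with
  | refl T => simpa using h
  | step e z T T1 T2 h1 _ ih =>
    have := TL_rot h1 (ih h)
    rwa [show e + 1 + b = e + b + 1 by ring]

lemma Serve.TL {T : Tr} {X : List ℕ} {a b : ℕ} (h : Serve T X a b) : TL T X a b := by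
  induction h with
  | nil T => exact TL_nil T
  | cons T T' x X e a b h1 _ ih => exact TL_req x (TL_rots h1 ih)

lemma stp_keys {τ : ℕ → Tr} (h : Stp τ) (i : ℕ) : keys (τ i) = keys (τ 0) := by
  induction i with
  | zero => rfl
  | succ i ih =>
    rcases h i with h1 | ⟨z, h1⟩
    · rw [← h1, ih]
    · rw [rot_keys h1, ih]

/-- the bound for all executions -/
theorem serve_ge {T : Tr} {X : List ℕ} {d : ℕ} (h : Alternating T X d) (O : Tr) (hb : IsBST O)
    (hk : ∀ k ∈ keys T, k ∈ keys O) {a b : ℕ} (hs : Serve O X a b) :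
    4 * X.length + 8 * d ≤ 13 * a + 52 * b := by
  obtain ⟨τ, r, R, h0, h1, h2, h3, h4, h5⟩ := hs.TL
  have hkk : ∀ i, keys (τ i) = keys O := fun i => by rw [stp_keys h1 i, h0]
  obtain ⟨c, -, -, -, -, c5, -, c7⟩ := dyn h τ r R (fun i => by unfold IsBST; rw [hkk i]; exact hb)
    (fun i k hkk' => by rw [hkk i]; exact hk k hkk') h1 h2 h3
  rw [sum_add_distrib] at h5
  simp only [sum_const, card_range, smul_eq_mul, mul_one] at h5
  simp only at c7
  clear * - h4 h5 c5 c7
  omega

lemma serve_static (O : Tr) : ∀ X : List ℕ, Serve O X (stat O X) 0 := by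
  intro X
  induction X with
  | nil => exact Serve.nil O
  | cons x X ih =>
    have := Serve.cons O O x X 0 _ _ (RotN.refl O) ih
    simpa [stat] using this

end Pool.Agent.Q133.SQ
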