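import Pool.Agent.Q133.SQ.Time

set_option autoImplicit false

/-!
# The induction over the reference tree
-/

namespace Pool.Agent.Q133.SQ

open Pool.Agent.H581R2.Splay Pool.Agent.TH49.Spl Pool.Agent.Q102.SP
open Finset Classical

/-- the charges of a join -/
noncomputable def chg (p cV cU : ℕ → ℕ) (j : ℕ) : ℕ :=
  if j % 2 = 0 then
    (if p j = 0 ∨ (p j = 1 ∧ j / 2 % 2 = 0 ∧ cV (j / 2) = 1) then 1 else 0)
  else (if p j = 1 ∨ (p j = 0 ∧ j / 2 % 2 = 1 ∧ cU (j / 2) = 1) then 1 else 0)

lemma chg_le (p cV cU : ℕ → ℕ) (j : ℕ) : chg p cV cU j ≤ 1 := by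
  unfold chg
  split_ifs <;> omega

lemma chg_even (p cV cU : ℕ → ℕ) (t : ℕ) : chg p cV cU (2 * t) =
    if p (2 * t) = 0 ∨ (p (2 * t) = 1 ∧ t % 2 = 0 ∧ cV t = 1) then 1 else 0 := by
  unfold chg
  rw [if_pos (show 2 * t % 2 = 0 by omega), show 2 * t / 2 = t by omega]

lemma chg_odd (p cV cU : ℕ → ℕ) (t : ℕ) : chg p cV cU (2 * t + 1) =
    if p (2 * t + 1) = 1 ∨ (p (2 * t + 1) = 0 ∧ t % 2 = 1 ∧ cU t = 1) then 1 else 0 := by
  unfold chg
  rw [if_neg (show ¬ (2 * t + 1) % 2 = 0 by omega), show (2 * t + 1) / 2 = t by omega]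

lemma chg_even_one {p cV cU : ℕ → ℕ} {t : ℕ} (h : chg p cV cU (2 * t) = 1) :
    p (2 * t) = 0 ∨ (p (2 * t) = 1 ∧ t % 2 = 0 ∧ cV t = 1) := by
  rw [chg_even] at h
  by_contra h1
  rw [if_neg h1] at h
  exact absurd h (by decide)

lemma chg_odd_one {p cV cU : ℕ → ℕ} {t : ℕ} (h : chg p cV cU (2 * t + 1) = 1) :
    p (2 * t + 1) = 1 ∨ (p (2 * t + 1) = 0 ∧ t % 2 = 1 ∧ cU t = 1) := by
  rw [chg_odd] at h
  by_contra h1
  rw [if_neg h1] at h
  exact absurd h (by decide)

/-- charged requests: at most one of two consecutive pairs is charged twice -/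
lemma chg_pair {p cV cU : ℕ → ℕ} {N : ℕ}
    (ha : ∀ j, j + 1 < N → p j ≠ 2 → p (j + 1) ≠ 2 → p j = p (j + 1)) {t : ℕ}
    (ht : 2 * t + 3 < N) : chg p cV cU (2 * t) + chg p cV cU (2 * t + 1) +
      (chg p cV cU (2 * (t + 1)) + chg p cV cU (2 * (t + 1) + 1)) ≤ 3 := by
  have l0 := chg_le p cV cU (2 * t)
  have l1 := chg_le p cV cU (2 * t + 1)
  have l2 := chg_le p cV cU (2 * (t + 1))
  have l3 := chg_le p cV cU (2 * (t + 1) + 1)
  by_contra hc
  have e0 : chg p cV cU (2 * t) = 1 := by clear * - l0 l1 l2 l3 hc; omega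
  have e1 : chg p cV cU (2 * t + 1) = 1 := by clear * - l0 l1 l2 l3 hc; omega
  have e2 : chg p cV cU (2 * (t + 1)) = 1 := by clear * - l0 l1 l2 l3 hc; omega
  have e3 : chg p cV cU (2 * (t + 1) + 1) = 1 := by clear * - l0 l1 l2 l3 hc; omega
  have f0 := chg_even_one e0
  have f1 := chg_odd_one e1
  have f2 := chg_even_one e2
  have f3 := chg_odd_one e3
  have g0 := ha (2 * t) (by omega)
  have g1 := ha (2 * t + 1) (by omega)
  have g2 := ha (2 * (t + 1)) (by omega)
  rw [show 2 * t + 1 + 1 = 2 * (t + 1) by ring] at g1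
  clear * - f0 f1 f2 f3 g0 g1 g2
  generalize p (2 * t) = q0 at *
  generalize p (2 * t + 1) = q1 at *
  generalize p (2 * (t + 1)) = q2 at *
  generalize p (2 * (t + 1) + 1) = q3 at *
  have h0 : q0 ≠ 2 := by rcases f0 with f0 | f0 <;> omega
  have h1 : q1 ≠ 2 := by rcases f1 with f1 | f1 <;> omega
  have h2 : q2 ≠ 2 := by rcases f2 with f2 | f2 <;> omega
  have h3 : q3 ≠ 2 := by rcases f3 with f3 | f3 <;> omega
  have i0 := g0 h0 h1
  have i1 := g1 h1 h2
  have i2 := g2 h2 h3
  clear g0 g1 g2
  rcases f0 with f0 | f0 <;> rcases f1 with f1 | f1 <;> rcases f2 with f2 | f2 <;>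
    rcases f3 with f3 | f3 <;> omega

lemma chg_four {p cV cU : ℕ → ℕ} {N : ℕ}
    (ha : ∀ j, j + 1 < N → p j ≠ 2 → p (j + 1) ≠ 2 → p j = p (j + 1)) {j : ℕ}
    (hj : j + 3 < N) : chg p cV cU j + chg p cV cU (j + 1) + chg p cV cU (j + 2) +
      chg p cV cU (j + 3) ≤ 3 := by
  rcases Nat.even_or_odd' j with ⟨t, rfl | rfl⟩
  · have := chg_pair (cV := cV) (cU := cU) ha hj
    rw [show 2 * (t + 1) = 2 * t + 2 by ring, show 2 * t + 2 + 1 = 2 * t + 3 by ring] at this
    clear * - this
    omega
  · have l0 := chg_le p cV cU (2 * t + 1)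
    have l1 := chg_le p cV cU (2 * t + 1 + 1)
    have l2 := chg_le p cV cU (2 * t + 1 + 2)
    have l3 := chg_le p cV cU (2 * t + 1 + 3)
    by_contra hc
    have e0 : chg p cV cU (2 * t + 1) = 1 := by clear * - l0 l1 l2 l3 hc; omega
    have e1 : chg p cV cU (2 * (t + 1)) = 1 := by
      rw [show 2 * (t + 1) = 2 * t + 1 + 1 by ring]
      clear * - l0 l1 l2 l3 hc; omega
    have e2 : chg p cV cU (2 * (t + 1) + 1) = 1 := by
      rw [show 2 * (t + 1) + 1 = 2 * t + 1 + 2 by ring]
      clear * - l0 l1 l2 l3 hc; omega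
    have e3 : chg p cV cU (2 * (t + 2)) = 1 := by
      rw [show 2 * (t + 2) = 2 * t + 1 + 3 by ring]
      clear * - l0 l1 l2 l3 hc; omega
    have f0 := chg_odd_one e0
    have f1 := chg_even_one e1
    have f2 := chg_odd_one e2
    have f3 := chg_even_one e3
    have g0 := ha (2 * t + 1) (by omega)
    have g1 := ha (2 * (t + 1)) (by omega)
    have g2 := ha (2 * (t + 1) + 1) (by omega)
    rw [show 2 * t + 1 + 1 = 2 * (t + 1) by ring] at g0
    rw [show 2 * (t + 1) + 1 + 1 = 2 * (t + 2) by ring] at g2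
    clear * - f0 f1 f2 f3 g0 g1 g2
    generalize p (2 * t + 1) = q0 at *
    generalize p (2 * (t + 1)) = q1 at *
    generalize p (2 * (t + 1) + 1) = q2 at *
    generalize p (2 * (t + 2)) = q3 at *
    have h0 : q0 ≠ 2 := by rcases f0 with f0 | f0 <;> omega
    have h1 : q1 ≠ 2 := by rcases f1 with f1 | f1 <;> omega
    have h2 : q2 ≠ 2 := by rcases f2 with f2 | f2 <;> omega
    have h3 : q3 ≠ 2 := by rcases f3 with f3 | f3 <;> omega
    have i0 := g0 h0 h1
    have i1 := g1 h1 h2
    have i2 := g2 h2 h3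
    clear g0 g1 g2
    rcases f0 with f0 | f0 <;> rcases f1 with f1 | f1 <;> rcases f2 with f2 | f2 <;>
      rcases f3 with f3 | f3 <;> omega

lemma st_even (r : ℕ → ℕ) (t : ℕ) : st (fun k => r (2 * k + 1)) t = st r (2 * t) := by
  cases t with
  | zero => rfl
  | succ t => rfl

/-- the join -/
theorem join_inv {s : ℕ} {τ : ℕ → Tr} {r : ℕ → ℕ} {R : ℕ} {xV xU x : ℕ → ℕ} {n dU dV : ℕ}
    (hb : ∀ i, IsBST (τ i)) (hs : Stp τ) (hr : ∀ t, r t ≤ r (t + 1)) (hR : ∀ t, r t ≤ R)
    (hx0 : ∀ t, t < n → x (2 * t) = xV t) (hx1 : ∀ t, t < n → x (2 * t + 1) = xU t)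
    (hV : ∀ t, t < n → s < xV t) (hU : ∀ t, t < n → xU t < s)
    (hkV : ∀ t, t < n → ∀ i, xV t ∈ keys (τ i)) (hkU : ∀ t, t < n → ∀ i, xU t ∈ keys (τ i))
    (iU : DInv (fun i => lo s (τ i)) (fun t => r (2 * t + 1)) R xU n dU)
    (iV : DInv (fun i => hi s (τ i)) (fun t => r (2 * t)) R xV n dV) :
    DInv τ r R x (2 * n) (dU + dV + 2 * n) := by
  obtain ⟨cU, u1, u2, u3, u4, u5, u6, u7⟩ := iU
  obtain ⟨cV, v1, v2, v3, v4, v5, v6, v7⟩ := iV
  simp only [st_even] at u2 u3
  set p := typ s τ r with hp
  have ha : ∀ j, j + 1 < 2 * n → p j ≠ 2 → p (j + 1) ≠ 2 → p j = p (j + 1) :=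
    fun j _ h1 h2 => typ_adj hb hs hr h1 h2
  have hnn : ∀ t, t < n → ∀ i, τ i ≠ Tr.nil := by
    intro t ht i h0
    have := hkV t ht i
    rw [h0] at this
    simp [keys] at this
  have mono : ∀ a b, a ≤ b → r a ≤ r b := fun a b h => monotone_nat_of_le_succ hr h
  -- slots of the two parts
  have slU : ∀ t i, st r (2 * t + 1) ≤ i → st r (2 * t) ≤ i := by
    intro t i h
    exact le_trans (st_le hr (2 * t)) h
  have slV : ∀ t i, st r (2 * t) ≤ i → st (fun k => r (2 * k)) t ≤ i := by
    intro t i h
    cases t with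
    | zero => exact Nat.zero_le _
    | succ t => exact le_trans (mono (2 * t) (2 * t + 1) (by omega)) h
  refine ⟨chg p cV cU, chg_le p cV cU, ?_, ?_, ?_, ?_, ?_, ?_⟩
  · -- charged requests above the root
    intro j hj hj2 hc i h1 h2
    obtain ⟨t, rfl⟩ : ∃ t, j = 2 * t := ⟨j / 2, by omega⟩
    have ht : t < n := by omega
    rw [hx0 t ht]
    have hvs := hV t ht
    rcases chg_even_one hc with h | ⟨h, h3, h4⟩
    · exact lt_trans (typ_zero hb hs hr h i h1 h2) hvs
    · have h5 := typ_one hb hs hr h i h1 h2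
      have h6 := v2 t ht h3 h4 i (slV t i h1) h2
      rcases Nat.lt_or_ge s (root (τ i)) with h7 | h7
      · simp only [root_hi h7] at h6
        exact h6
      · omega
  · -- charged requests below the root
    intro j hj hj2 hc i h1 h2
    obtain ⟨t, rfl⟩ : ∃ t, j = 2 * t + 1 := ⟨j / 2, by omega⟩
    have ht : t < n := by omega
    rw [hx1 t ht]
    have hus := hU t ht
    rcases chg_odd_one hc with h | ⟨h, h3, h4⟩
    · have := typ_one hb hs hr h i h1 h2
      omega
    · have h5 := typ_zero hb hs hr h i h1 h2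
      have h6 := u3 t ht h3 h4 i (slU t i h1) h2
      simp only [root_lo h5 (hnn t ht i)] at h6
      exact h6
  · intro t ht
    exact chg_four ha ht
  · rw [sum_two]
    have := pair_sum (n := n) (p := fun t => chg p cV cU (2 * t) + chg p cV cU (2 * t + 1)) (by
      intro t ht
      exact chg_pair ha (by omega)) (by
      intro hn t ht
      have c1 := u6 hn t ht
      have c2 := v6 hn t ht
      have l0 := chg_le p cV cU (2 * t)
      have l1 := chg_le p cV cU (2 * t + 1)
      by_contra hc
      have e0 : chg p cV cU (2 * t) = 1 := by clear * - l0 l1 hc; omega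
      have e1 : chg p cV cU (2 * t + 1) = 1 := by clear * - l0 l1 hc; omega
      have f0 := chg_even_one e0
      have f1 := chg_odd_one e1
      have g0 := ha (2 * t) (by omega)
      clear * - c1 c2 f0 f1 g0
      rcases f0 with f0 | f0 <;> rcases f1 with f1 | f1
      · have := g0 (by omega) (by omega)
        omega
      · omega
      · omega
      · omega)
    clear * - this
    omega
  · intro h
    omega
  · -- the balance
    have sc := scan (n := n) (pV := fun t => p (2 * t)) (pU := fun t => p (2 * t + 1))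
      (eV := fun t => dep (xV t) (τ (r (2 * t))) - dep (xV t) (hi s (τ (r (2 * t)))))
      (eU := fun t => dep (xU t) (τ (r (2 * t + 1))) - dep (xU t) (lo s (τ (r (2 * t + 1)))))
      (gV := fun t => chg p cV cU (2 * t)) (gU := fun t => chg p cV cU (2 * t + 1))
      (cV := cV) (cU := cU)
      (mV := fun t => if pure' s τ (st r (2 * t)) (r (2 * t)) then 0 else 1)
      (mU := fun t => if pure' s τ (st r (2 * t + 1)) (r (2 * t + 1)) then 0 else 1)
      (fun t => typ_le s τ r _) (fun t => typ_le s τ r _) v1 u1 v4 u4 v5 u5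
      (fun t ht h1 h2 => ha (2 * t) (by omega) h1 h2)
      (fun t ht h1 h2 => ha (2 * t + 1) (by omega) h1 h2)
      (by -- E1
        intro t ht h
        have h1 := extra_right (hV t ht) (hb (r (2 * t))) (hnn t ht _)
          (typ_zero hb hs hr h _ (st_le hr _) le_rfl)
        clear * - h1
        omega)
      (by -- E2
        intro t ht h
        have h1 := extra_left (hU t ht) (hb (r (2 * t + 1))) (hnn t ht _)
          (typ_one hb hs hr h _ (st_le hr _) le_rfl)
        clear * - h1
        omega)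
      (by -- E1'
        intro t ht h
        have h1 := extra_right (hV t ht) (hb (r (2 * t))) (hnn t ht _)
          (typ_zero hb hs hr h (r (2 * t)) le_rfl (hr (2 * t)))
        clear * - h1
        omega)
      (by -- E2'
        intro t ht h
        have h1 := extra_left (hU t (by omega)) (hb (r (2 * t + 1))) (hnn t (by omega) _)
          (typ_one hb hs hr h (r (2 * t + 1)) le_rfl (hr (2 * t + 1)))
        clear * - h1
        omega)
      (by -- E3
        intro t ht h' hc hp2
        have h0 := typ_zero hb hs hr h' (r (2 * t)) le_rfl (hr (2 * t))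
        have h1 := extra_right (hV t ht) (hb (r (2 * t))) (hnn t ht _) h0
        have h2 := u2 t ht hp2 hc (r (2 * t)) (st_le hr (2 * t)) (hr (2 * t))
        simp only [root_lo h0 (hnn t ht _)] at h2
        have h3 := second_left (hU t ht) (hV t ht) (hb (r (2 * t))) (hkV t ht _) h0 h2
        rcases h3 with h3 | h3
        · clear * - h3
          omega
        · have h4 := GE_const s (xU t) (hU t ht) hb hs (typ_pure (j := 2 * t + 1) (by
            change typ s τ r (2 * t + 1) = 0 at h'; omega)) h3 (r (2 * t + 1)) (hr (2 * t)) le_rfl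
          have h5 := hasGE_dep (hU t ht) (hb _) h4
          clear * - h1 h5
          omega)
      (by -- E4
        intro t ht h' hc hp2
        have h0 := typ_one hb hs hr h' (r (2 * t + 1)) le_rfl (hr (2 * t + 1))
        have h1 := extra_left (hU t (by omega)) (hb (r (2 * t + 1))) (hnn t (by omega) _) h0
        have h2 := v3 (t + 1) ht hp2 hc (r (2 * t + 1)) (hr (2 * t)) (hr (2 * t + 1))
        have h3 := second_right (hU t (by omega)) (hV (t + 1) ht) (hb (r (2 * t + 1)))
          (hkU t (by omega) _) h0 (by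
            rcases Nat.lt_or_ge s (root (τ (r (2 * t + 1)))) with h7 | h7
            · right
              simp only [root_hi h7] at h2
              exact h2
            · left
              clear * - h0 h7
              omega)
        rcases h3 with h3 | h3
        · clear * - h3
          omega
        · have h4 := LE_const s (xV (t + 1)) (hV (t + 1) ht) hb hs (typ_pure (j := 2 * (t + 1)) (by
            change typ s τ r (2 * (t + 1)) = 1 at h'; omega)) h3 (r (2 * (t + 1))) (hr (2 * t + 1)) le_rfl
          have h5 := hasLE_dep (hV (t + 1) ht) (hb _) h4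
          clear * - h1 h5
          omega)
      (by -- G1
        intro t ht h
        rw [chg_even, if_pos (Or.inl h)])
      (by -- G2
        intro t ht h h2
        rw [chg_even]
        rcases Nat.eq_zero_or_pos (cV t) with h3 | h3
        · rw [h3]; exact Nat.zero_le _
        · have h4 : cV t = 1 := le_antisymm (v1 t) h3
          rw [if_pos (Or.inr ⟨h, h2, h4⟩), h4])
      (by -- G3
        intro t ht h
        rw [chg_odd, if_pos (Or.inl h)])
      (by -- G4
        intro t ht h h2
        rw [chg_odd]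
        rcases Nat.eq_zero_or_pos (cU t) with h3 | h3
        · rw [h3]; exact Nat.zero_le _
        · have h4 : cU t = 1 := le_antisymm (u1 t) h3
          rw [if_pos (Or.inr ⟨h, h2, h4⟩), h4])
      (by -- M1
        intro t ht h
        by_cases h1 : pure' s τ (st r (2 * t)) (r (2 * t))
        · exfalso
          change typ s τ r (2 * t) = 2 at h
          unfold typ at h
          rw [if_pos h1] at h
          clear * - h
          split_ifs at h <;> omega
        · rw [if_neg h1])
      (by -- M2
        intro t ht h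
        by_cases h1 : pure' s τ (st r (2 * t + 1)) (r (2 * t + 1))
        · exfalso
          change typ s τ r (2 * t + 1) = 2 at h
          unfold typ at h
          rw [if_pos h1] at h
          clear * - h
          split_ifs at h <;> omega
        · rw [if_neg h1])
    have m1 := mxc_slots s τ hr (2 * n)
    have m2 : mxc s τ (st r (2 * n)) ≤ mxc s τ R := by
      refine mxc_mono s τ ?_
      cases n with
      | zero => exact Nat.zero_le _
      | succ n => exact hR _
    have m3 := rho_split s hb hs R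
    rw [sum_two] at m1
    rw [sum_two, sum_two]
    simp only [sum_add_distrib, ← mul_sum, sum_const, card_range, smul_eq_mul] at sc m1 ⊢
    have d1 : ∑ t ∈ range n, dep (x (2 * t)) (τ (r (2 * t))) =
        ∑ t ∈ range n, (dep (xV t) (τ (r (2 * t))) - dep (xV t) (hi s (τ (r (2 * t))))) +
        ∑ t ∈ range n, dep (xV t) (hi s (τ (r (2 * t)))) := by
      rw [← sum_add_distrib]
      refine sum_congr rfl fun t ht => ?_
      have h1 := mem_range.1 ht
      rw [hx0 t h1]
      have := dep_hi_le s (xV t) (τ (r (2 * t))) (hV t h1)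
      omega
    have d2 : ∑ t ∈ range n, dep (x (2 * t + 1)) (τ (r (2 * t + 1))) =
        ∑ t ∈ range n, (dep (xU t) (τ (r (2 * t + 1))) - dep (xU t) (lo s (τ (r (2 * t + 1))))) +
        ∑ t ∈ range n, dep (xU t) (lo s (τ (r (2 * t + 1)))) := by
      rw [← sum_add_distrib]
      refine sum_congr rfl fun t ht => ?_
      have h1 := mem_range.1 ht
      rw [hx1 t h1]
      have := dep_lo_le s (xU t) (τ (r (2 * t + 1))) (hU t h1)
      omega
    rw [d1, d2]
    beta_reduce at u7 v7 sc m1
    clear * - sc m1 m2 m3 u7 v7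
    omega

/-- the invariant for all executions -/
theorem dyn {T : Tr} {X : List ℕ} {d : ℕ} (h : Alternating T X d) :
    ∀ (τ : ℕ → Tr) (r : ℕ → ℕ) (R : ℕ), (∀ i, IsBST (τ i)) → (∀ i, ∀ k ∈ keys T, k ∈ keys (τ i)) →
      Stp τ → (∀ t, r t ≤ r (t + 1)) → (∀ t, r t ≤ R) →
      DInv τ r R (fun t => X.getD t 0) X.length d := by
  induction h with
  | single k N =>
    intro τ r R _ _ _ _ _
    refine ⟨fun _ => 0, fun _ => Nat.zero_le _, ?_, ?_, ?_, ?_, ?_, ?_⟩
    · intro t _ _ h; exact absurd h (by simp)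
    · intro t _ _ h; exact absurd h (by simp)
    · intro t _; simp
    · simp
    · intro _ t _; rfl
    · simp
  | join s y A C TR U V dU dV h1 h2 hl hL hRr ih1 ih2 =>
    intro τ r R hb hk hs hr hR
    have hU : ∀ u ∈ U, u < s := fun u hu => hL u (h1.mem u hu)
    have hV : ∀ v ∈ V, s < v := fun v hv => hRr v (h2.mem v hv)
    have hspl : ∀ i, (lo s (τ i) = lo s (τ (i + 1)) ∨ ∃ z, Rot (lo s (τ i)) (lo s (τ (i + 1))) z) ∧
      (hi s (τ i) = hi s (τ (i + 1)) ∨ ∃ z, Rot (hi s (τ i)) (hi s (τ (i + 1))) z) :=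
      fun i => ⟨(stp_split s hb hs i).1, (stp_split s hb hs i).2.1⟩
    have mono : ∀ a b, a ≤ b → r a ≤ r b := fun a b h => monotone_nat_of_le_succ hr h
    have i1 := ih1 (fun i => lo s (τ i)) (fun t => r (2 * t + 1)) R (fun i => bst_lo (hb i)) (by
      intro i k hkk
      rw [keys_lo s (τ i) (hb i), List.mem_filter]
      refine ⟨hk i k ?_, by simpa using hL k hkk⟩
      simp only [keys, List.mem_append, List.mem_cons] at hkk ⊢
      tauto) (fun i => (hspl i).1) (fun t => mono _ _ (by omega)) (fun t => hR _)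
    have i2 := ih2 (fun i => hi s (τ i)) (fun t => r (2 * t)) R (fun i => bst_hi (hb i)) (by
      intro i k hkk
      rw [keys_hi s (τ i) (hb i), List.mem_filter]
      refine ⟨hk i k ?_, by simpa using hRr k hkk⟩
      simp only [keys, List.mem_append, List.mem_cons]
      tauto) (fun i => (hspl i).2) (fun t => mono _ _ (by omega)) (fun t => hR _)
    have hget : ∀ (V U : List ℕ), V.length = U.length → ∀ t, t < U.length →
        (mix V U).getD (2 * t) 0 = V.getD t 0 ∧ (mix V U).getD (2 * t + 1) 0 = U.getD t 0 := by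
      intro V
      induction V with
      | nil =>
        intro U h t ht
        simp only [List.length_nil] at h
        omega
      | cons v V ih =>
        intro U h t ht
        cases U with
        | nil => simp at h
        | cons u U =>
          cases t with
          | zero => simp [mix]
          | succ t =>
            simp only [List.length_cons] at h ht
            have := ih U (by omega) t (by omega)
            rw [show 2 * (t + 1) = 2 * t + 1 + 1 by ring, show 2 * t + 1 + 1 + 1 = (2 * t + 1) + 1 + 1 by ring]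
            simp only [mix, List.getD_cons_succ]
            exact this
    have hmU : ∀ t, t < U.length → U.getD t 0 ∈ U := by
      intro t ht
      rw [List.getD_eq_getElem _ _ ht]
      exact List.getElem_mem ht
    have hmV : ∀ t, t < U.length → V.getD t 0 ∈ V := by
      intro t ht
      rw [List.getD_eq_getElem _ _ (hl ▸ ht)]
      exact List.getElem_mem _
    rw [hl] at i2
    rw [mix_length V U hl]
    refine join_inv (s := s) hb hs hr hR (fun t ht => (hget V U hl t ht).1)
      (fun t ht => (hget V U hl t ht).2) (fun t ht => hV _ (hmV t ht)) (fun t ht => hU _ (hmU t ht))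
      (fun t ht i => hk i _ ?_) (fun t ht i => hk i _ ?_) i1 i2
    · have := h2.mem _ (hmV t ht)
      simp only [keys, List.mem_append, List.mem_cons]
      tauto
    · have := h1.mem _ (hmU t ht)
      simp only [keys, List.mem_append, List.mem_cons] at this ⊢
      tauto

end Pool.Agent.Q133.SQ
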