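import Mathlib

set_option autoImplicit false

/-!
# The accounting over the requests
-/

namespace Pool.Agent.Q133.SQ

open Finset

/-- the number of consecutive ones before `t` -/
def tr (c : ℕ → ℕ) : ℕ → ℕ
  | 0 => 0
  | t + 1 => if c t = 0 then 0 else tr c t + 1

lemma tr_le {c : ℕ → ℕ} {n : ℕ} (hc : ∀ t, c t ≤ 1)
    (h4 : ∀ t, t + 3 < n → c t + c (t + 1) + c (t + 2) + c (t + 3) ≤ 3) :
    ∀ t, t ≤ n → tr c t ≤ 3 ∧ ∀ k, k < tr c t → k + 1 ≤ t ∧ c (t - 1 - k) = 1 := by
  intro t
  induction t with
  | zero => intro _; simp [tr]
  | succ t ih =>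
    intro ht
    obtain ⟨h1, h2⟩ := ih (by omega)
    by_cases h0 : c t = 0
    · have e : tr c (t + 1) = 0 := by simp [tr, h0]
      rw [e]
      exact ⟨by omega, fun k hk => by omega⟩
    · have e : tr c (t + 1) = tr c t + 1 := by simp [tr, h0]
      rw [e]
      have hct := hc t
      constructor
      · by_contra h3
        have e3 : tr c t = 3 := by omega
        have a0 := h2 0 (by omega)
        have a1 := h2 1 (by omega)
        have a2 := h2 2 (by omega)
        obtain ⟨u, rfl⟩ : ∃ u, t = u + 3 := ⟨t - 3, by omega⟩
        have b0 : c (u + 2) = 1 := by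
          have := a0.2
          rwa [show u + 3 - 1 - 0 = u + 2 by omega] at this
        have b1 : c (u + 1) = 1 := by
          have := a1.2
          rwa [show u + 3 - 1 - 1 = u + 1 by omega] at this
        have b2 : c u = 1 := by
          have := a2.2
          rwa [show u + 3 - 1 - 2 = u by omega] at this
        have := h4 u (by omega)
        omega
      · intro k hk
        rcases Nat.eq_zero_or_pos k with rfl | hk0
        · refine ⟨by omega, ?_⟩
          rw [show t + 1 - 1 - 0 = t by omega]
          omega
        · have := h2 (k - 1) (by omega)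
          refine ⟨by omega, ?_⟩
          rw [show t + 1 - 1 - k = t - 1 - (k - 1) by omega]
          exact this.2

lemma tr_sum {c : ℕ → ℕ} {n : ℕ} (hc : ∀ t, c t ≤ 1)
    (h4 : ∀ t, t + 3 < n → c t + c (t + 1) + c (t + 2) + c (t + 3) ≤ 3) :
    ∀ t, t ≤ n → 12 * ∑ i ∈ range t, c i ≤ 9 * t + 3 * tr c t := by
  intro t
  induction t with
  | zero => intro _; simp
  | succ t ih =>
    intro ht
    have h1 := ih (by omega)
    have h2 := (tr_le hc h4 t (by omega)).1
    have hct := hc t
    rw [sum_range_succ]
    by_cases h0 : c t = 0
    · have e : tr c (t + 1) = 0 := by simp [tr, h0]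
      rw [e]
      omega
    · have e : tr c (t + 1) = tr c t + 1 := by simp [tr, h0]
      rw [e]
      omega

lemma tr_succ {c : ℕ → ℕ} (hc : ∀ t, c t ≤ 1) (t : ℕ) :
    (c t = 0 ∧ tr c (t + 1) = 0) ∨ (c t = 1 ∧ tr c (t + 1) = tr c t + 1) := by
  have := hc t
  by_cases h0 : c t = 0
  · left; exact ⟨h0, by simp [tr, h0]⟩
  · right; exact ⟨by omega, by simp [tr, h0]⟩

/-- the accounting -/
theorem scan {n : ℕ} {pV pU eV eU gV gU cV cU mV mU : ℕ → ℕ}
    (hpV : ∀ t, pV t ≤ 2) (hpU : ∀ t, pU t ≤ 2) (hcV : ∀ t, cV t ≤ 1) (hcU : ∀ t, cU t ≤ 1)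
    (h4V : ∀ t, t + 3 < n → cV t + cV (t + 1) + cV (t + 2) + cV (t + 3) ≤ 3)
    (h4U : ∀ t, t + 3 < n → cU t + cU (t + 1) + cU (t + 2) + cU (t + 3) ≤ 3)
    (hsV : 4 * ∑ t ∈ range n, cV t ≤ 3 * n) (hsU : 4 * ∑ t ∈ range n, cU t ≤ 3 * n)
    (a1 : ∀ t, t < n → pV t ≠ 2 → pU t ≠ 2 → pV t = pU t)
    (a2 : ∀ t, t + 1 < n → pU t ≠ 2 → pV (t + 1) ≠ 2 → pU t = pV (t + 1))
    (E1 : ∀ t, t < n → pV t = 0 → 1 ≤ eV t)
    (E2 : ∀ t, t < n → pU t = 1 → 1 ≤ eU t)
    (E1' : ∀ t, t < n → pU t = 0 → 1 ≤ eV t)
    (E2' : ∀ t, t + 1 < n → pV (t + 1) = 1 → 1 ≤ eU t)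
    (E3 : ∀ t, t < n → pU t = 0 → cU t = 1 → t % 2 = 0 → 2 ≤ eV t + eU t)
    (E4 : ∀ t, t + 1 < n → pV (t + 1) = 1 → cV (t + 1) = 1 → (t + 1) % 2 = 1 →
      2 ≤ eU t + eV (t + 1))
    (G1 : ∀ t, t < n → pV t = 0 → 1 ≤ gV t)
    (G2 : ∀ t, t < n → pV t = 1 → t % 2 = 0 → cV t ≤ gV t)
    (G3 : ∀ t, t < n → pU t = 1 → 1 ≤ gU t)
    (G4 : ∀ t, t < n → pU t = 0 → t % 2 = 1 → cU t ≤ gU t)
    (M1 : ∀ t, t < n → pV t = 2 → 1 ≤ mV t) (M2 : ∀ t, t < n → pU t = 2 → 1 ≤ mU t) :
    ∑ t ∈ range n, (16 + 12 * cU t + 12 * cV t) ≤
      ∑ t ∈ range n, (13 * (eV t + eU t) + 12 * (gV t + gU t) + 52 * (mV t + mU t)) := by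
  have main : ∀ k, k < n →
      (pU k = 0 ∧ ∑ t ∈ range (k + 1), (16 + 12 * cU t + 12 * cV t) + 9 * (k + 1) ≤
        ∑ t ∈ range (k + 1), (13 * (eV t + eU t) + 12 * (gV t + gU t) + 52 * (mV t + mU t)) +
          12 * ∑ t ∈ range (k + 1), cV t) ∨
      (pU k = 1 ∧ ∑ t ∈ range (k + 1), (16 + 12 * cU t + 12 * cV t) + 9 * (k + 1) + 13 * eU k ≤
        ∑ t ∈ range (k + 1), (13 * (eV t + eU t) + 12 * (gV t + gU t) + 52 * (mV t + mU t)) +
          12 * ∑ t ∈ range (k + 1), cU t + 13) ∨
      (pU k = 0 ∧ ∑ t ∈ range (k + 1), (16 + 12 * cU t + 12 * cV t) + 9 ≤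
        ∑ t ∈ range (k + 1), (13 * (eV t + eU t) + 12 * (gV t + gU t) + 52 * (mV t + mU t)) +
          3 * tr cV (k + 1)) ∨
      (pU k = 1 ∧ ∑ t ∈ range (k + 1), (16 + 12 * cU t + 12 * cV t) + 9 + 13 * eU k ≤
        ∑ t ∈ range (k + 1), (13 * (eV t + eU t) + 12 * (gV t + gU t) + 52 * (mV t + mU t)) +
          3 * tr cU (k + 1) + 13) ∨
      (pU k = 2 ∧ ∑ t ∈ range (k + 1), (16 + 12 * cU t + 12 * cV t) + 9 + 13 * eU k ≤
        ∑ t ∈ range (k + 1), (13 * (eV t + eU t) + 12 * (gV t + gU t) + 52 * (mV t + mU t))) := by
    intro k
    induction k with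
    | zero =>
      intro hn
      have x1 := hpV 0
      have x2 := hpU 0
      have x3 := hcV 0
      have x4 := hcU 0
      have x5 := a1 0 hn
      have y1 := E1 0 hn
      have y3 := E3 0 hn
      have z1 := G1 0 hn
      have z2 := G2 0 hn
      have z3 := G3 0 hn
      have w1 := M1 0 hn
      have w2 := M2 0 hn
      simp only [zero_add, sum_range_one]
      obtain h | h | h : pV 0 = 0 ∨ pV 0 = 1 ∨ pV 0 = 2 := by clear * - x1; omega
      · obtain h' | h' | h' : pU 0 = 0 ∨ pU 0 = 1 ∨ pU 0 = 2 := by clear * - x2; omega
        · left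
          have q1 := z1 h
          have q2 := y1 h
          refine ⟨h', ?_⟩
          rcases Nat.eq_zero_or_pos (cU 0) with q | q
          · clear * - q1 q2 q
            omega
          · have q3 := y3 h' (le_antisymm x4 q) rfl
            clear * - q1 q3 x4
            omega
        · exact absurd ((x5 (by rw [h]; decide) (by rw [h']; decide)).symm.trans h) (by rw [h']; decide)
        · right; right; right; right
          have q1 := w2 h'
          have q2 := z1 h
          have q3 := y1 h
          refine ⟨h', ?_⟩
          clear * - q1 q2 q3 x3 x4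
          omega
      · obtain h' | h' | h' : pU 0 = 0 ∨ pU 0 = 1 ∨ pU 0 = 2 := by clear * - x2; omega
        · exact absurd ((x5 (by rw [h]; decide) (by rw [h']; decide)).symm.trans h) (by rw [h']; decide)
        · right; left
          have q1 := z2 h rfl
          have q2 := z3 h'
          refine ⟨h', ?_⟩
          clear * - q1 q2
          omega
        · right; right; right; right
          have q1 := w2 h'
          refine ⟨h', ?_⟩
          clear * - q1 x3 x4
          omega
      · have q1 := w1 h
        obtain h' | h' | h' : pU 0 = 0 ∨ pU 0 = 1 ∨ pU 0 = 2 := by clear * - x2; omega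
        · right; right; left
          refine ⟨h', ?_⟩
          clear * - q1 x3 x4
          omega
        · right; right; right; left
          refine ⟨h', ?_⟩
          clear * - q1 x3 x4
          omega
        · right; right; right; right
          refine ⟨h', ?_⟩
          clear * - q1 x3 x4
          omega
    | succ k ih =>
      intro hn
      have hk := ih (by omega)
      have s1 := tr_sum hcV h4V (k + 1) (by omega)
      have s2 := tr_sum hcU h4U (k + 1) (by omega)
      have s3 := (tr_le hcV h4V (k + 1) (by omega)).1
      have s4 := (tr_le hcU h4U (k + 1) (by omega)).1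
      have t1 := tr_succ hcV (k + 1)
      have t2 := tr_succ hcU (k + 1)
      have x3 := hcV (k + 1)
      have x4 := hcU (k + 1)
      rw [sum_range_succ _ (k + 1), sum_range_succ _ (k + 1), sum_range_succ _ (k + 1),
        sum_range_succ _ (k + 1)]
      generalize ∑ t ∈ range (k + 1), (16 + 12 * cU t + 12 * cV t) = D at hk ⊢
      generalize ∑ t ∈ range (k + 1), (13 * (eV t + eU t) + 12 * (gV t + gU t) +
        52 * (mV t + mU t)) = S at hk ⊢
      generalize ∑ t ∈ range (k + 1), cV t = CV at hk s1 ⊢
      generalize ∑ t ∈ range (k + 1), cU t = CU at hk s2 ⊢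
      generalize tr cV (k + 1) = rV at hk s1 s3 t1 ⊢
      generalize tr cU (k + 1) = rU at hk s2 s4 t2 ⊢
      generalize tr cV (k + 1 + 1) = rV' at t1 ⊢
      generalize tr cU (k + 1 + 1) = rU' at t2 ⊢
      have x1 := hpV (k + 1)
      have x2 := hpU (k + 1)
      have x5 := a1 (k + 1) hn
      have x6 := a2 k hn
      have y1 := E1 (k + 1) hn
      have y2 := E2 (k + 1) hn
      have y2' := E2 k (by omega)
      have y3 := E3 (k + 1) hn
      have y4 := E4 k hn
      have y5 := E2' k hn
      have y6 := E1' (k + 1) hn
      have z1 := G1 (k + 1) hn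
      have z2 := G2 (k + 1) hn
      have z3 := G3 (k + 1) hn
      have z4 := G4 (k + 1) hn
      have w1 := M1 (k + 1) hn
      have w2 := M2 (k + 1) hn
      have hpar : (k + 1) % 2 = 0 ∨ (k + 1) % 2 = 1 := by clear * -; omega
      obtain h | h | h : pV (k + 1) = 0 ∨ pV (k + 1) = 1 ∨ pV (k + 1) = 2 := by
        clear * - x1; omega
      · have q1 := z1 h
        have q2 := y1 h
        obtain h' | h' | h' : pU (k + 1) = 0 ∨ pU (k + 1) = 1 ∨ pU (k + 1) = 2 := by
          clear * - x2; omega
        · -- `U U`
          have q3 := y3 h'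
          have q4 := z4 h'
          have key : 25 + 12 * cU (k + 1) ≤ 13 * (eV (k + 1) + eU (k + 1)) +
              12 * (gV (k + 1) + gU (k + 1)) := by
            rcases hpar with hp | hp
            · rcases t2 with ⟨t2, -⟩ | ⟨t2, -⟩
              · clear * - q1 q2 t2
                omega
              · have q5 := q3 t2 hp
                clear * - q1 q5 t2
                omega
            · have q5 := q4 hp
              clear * - q1 q2 q5
              omega
          rcases hk with ⟨g1, g2⟩ | ⟨g1, g2⟩ | ⟨g1, g2⟩ | ⟨g1, g2⟩ | ⟨g1, g2⟩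
          · left
            refine ⟨h', ?_⟩
            clear * - g2 key
            omega
          · exact absurd (g1.symm.trans (x6 (by rw [g1]; decide) (by rw [h]; decide)))
              (by rw [h]; decide)
          · right; right; left
            refine ⟨h', ?_⟩
            rcases t1 with ⟨t1, t1'⟩ | ⟨t1, t1'⟩
            · clear * - g2 key s3 t1 t1'
              omega
            · clear * - g2 key s3 t1 t1'
              omega
          · exact absurd (g1.symm.trans (x6 (by rw [g1]; decide) (by rw [h]; decide)))
              (by rw [h]; decide)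
          · right; right; left
            refine ⟨h', ?_⟩
            rcases t1 with ⟨t1, t1'⟩ | ⟨t1, t1'⟩
            · clear * - g2 key t1 t1'
              omega
            · clear * - g2 key t1 t1'
              omega
        · exact absurd ((x5 (by rw [h]; decide) (by rw [h']; decide)).symm.trans h)
            (by rw [h']; decide)
        · -- `U M`
          right; right; right; right
          have q3 := w2 h'
          refine ⟨h', ?_⟩
          rcases hk with ⟨g1, g2⟩ | ⟨g1, g2⟩ | ⟨g1, g2⟩ | ⟨g1, g2⟩ | ⟨g1, g2⟩
          · clear * - g2 q1 q2 q3 s1 s3 x3 x4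
            omega
          · exact absurd (g1.symm.trans (x6 (by rw [g1]; decide) (by rw [h]; decide)))
              (by rw [h]; decide)
          · clear * - g2 q1 q2 q3 s1 s3 x3 x4
            omega
          · exact absurd (g1.symm.trans (x6 (by rw [g1]; decide) (by rw [h]; decide)))
              (by rw [h]; decide)
          · clear * - g2 q1 q2 q3 x3 x4
            omega
      · have q3 := z2 h
        obtain h' | h' | h' : pU (k + 1) = 0 ∨ pU (k + 1) = 1 ∨ pU (k + 1) = 2 := by
          clear * - x2; omega
        · exact absurd ((x5 (by rw [h]; decide) (by rw [h']; decide)).symm.trans h)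
            (by rw [h']; decide)
        · -- `V V`
          have q1 := z3 h'
          have q2 := y2 h'
          rcases hk with ⟨g1, g2⟩ | ⟨g1, g2⟩ | ⟨g1, g2⟩ | ⟨g1, g2⟩ | ⟨g1, g2⟩
          · exact absurd (g1.symm.trans (x6 (by rw [g1]; decide) (by rw [h]; decide)))
              (by rw [h]; decide)
          · right; left
            refine ⟨h', ?_⟩
            have q4 := y4 h
            have q5 := y2' g1
            have key : 12 + 12 * cV (k + 1) + 13 ≤ 13 * eV (k + 1) + 13 * eU k +
              12 * (gV (k + 1) + gU (k + 1)) := by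
              rcases hpar with hp | hp
              · have q6 := q3 hp
                clear * - q6 q5 q1
                omega
              · rcases t1 with ⟨t1, -⟩ | ⟨t1, -⟩
                · clear * - t1 q5 q1
                  omega
                · have q6 := q4 t1 hp
                  clear * - q6 q1 t1
                  omega
            clear * - g2 key
            omega
          · exact absurd (g1.symm.trans (x6 (by rw [g1]; decide) (by rw [h]; decide)))
              (by rw [h]; decide)
          · right; right; right; left
            refine ⟨h', ?_⟩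
            have q4 := y4 h
            have q5 := y2' g1
            have key : 12 + 12 * cV (k + 1) + 13 ≤ 13 * eV (k + 1) + 13 * eU k +
              12 * (gV (k + 1) + gU (k + 1)) := by
              rcases hpar with hp | hp
              · have q6 := q3 hp
                clear * - q6 q5 q1
                omega
              · rcases t1 with ⟨t1, -⟩ | ⟨t1, -⟩
                · clear * - t1 q5 q1
                  omega
                · have q6 := q4 t1 hp
                  clear * - q6 q1 t1
                  omega
            rcases t2 with ⟨t2, t2'⟩ | ⟨t2, t2'⟩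
            · clear * - g2 key s4 t2 t2'
              omega
            · clear * - g2 key s4 t2 t2'
              omega
          · right; right; right; left
            refine ⟨h', ?_⟩
            have q4 := y4 h
            have q5 := y5 h
            have key : 12 + 12 * cV (k + 1) + 13 ≤ 13 * eV (k + 1) + 13 * eU k +
              12 * (gV (k + 1) + gU (k + 1)) := by
              rcases hpar with hp | hp
              · have q6 := q3 hp
                clear * - q6 q5 q1
                omega
              · rcases t1 with ⟨t1, -⟩ | ⟨t1, -⟩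
                · clear * - t1 q5 q1
                  omega
                · have q6 := q4 t1 hp
                  clear * - q6 q1 t1
                  omega
            clear * - g2 key x4
            omega
        · -- `V M`
          right; right; right; right
          have q1 := w2 h'
          refine ⟨h', ?_⟩
          rcases hk with ⟨g1, g2⟩ | ⟨g1, g2⟩ | ⟨g1, g2⟩ | ⟨g1, g2⟩ | ⟨g1, g2⟩
          · exact absurd (g1.symm.trans (x6 (by rw [g1]; decide) (by rw [h]; decide)))
              (by rw [h]; decide)
          · have q4 := y4 h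
            have q5 := y2' g1
            have key : 12 * cV (k + 1) + 13 ≤ 13 * eV (k + 1) + 13 * eU k +
              12 * (gV (k + 1) + gU (k + 1)) := by
              rcases hpar with hp | hp
              · have q6 := q3 hp
                clear * - q6 q5
                omega
              · rcases t1 with ⟨t1, -⟩ | ⟨t1, -⟩
                · clear * - t1 q5
                  omega
                · have q6 := q4 t1 hp
                  clear * - q6 t1
                  omega
            clear * - g2 key q1 s2 s4 x4
            omega
          · exact absurd (g1.symm.trans (x6 (by rw [g1]; decide) (by rw [h]; decide)))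
              (by rw [h]; decide)
          · have q4 := y4 h
            have q5 := y2' g1
            have key : 12 * cV (k + 1) + 13 ≤ 13 * eV (k + 1) + 13 * eU k +
              12 * (gV (k + 1) + gU (k + 1)) := by
              rcases hpar with hp | hp
              · have q6 := q3 hp
                clear * - q6 q5
                omega
              · rcases t1 with ⟨t1, -⟩ | ⟨t1, -⟩
                · clear * - t1 q5
                  omega
                · have q6 := q4 t1 hp
                  clear * - q6 t1
                  omega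
            clear * - g2 key q1 s4 x4
            omega
          · have q4 := y4 h
            have q5 := y5 h
            have key : 12 * cV (k + 1) + 13 ≤ 13 * eV (k + 1) + 13 * eU k +
              12 * (gV (k + 1) + gU (k + 1)) := by
              rcases hpar with hp | hp
              · have q6 := q3 hp
                clear * - q6 q5
                omega
              · rcases t1 with ⟨t1, -⟩ | ⟨t1, -⟩
                · clear * - t1 q5
                  omega
                · have q6 := q4 t1 hp
                  clear * - q6 t1
                  omega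
            clear * - g2 key q1 x4
            omega
      · have q1 := w1 h
        obtain h' | h' | h' : pU (k + 1) = 0 ∨ pU (k + 1) = 1 ∨ pU (k + 1) = 2 := by
          clear * - x2; omega
        · -- `M U`
          right; right; left
          refine ⟨h', ?_⟩
          have q3 := y3 h'
          have q4 := z4 h'
          have q2 := y6 h'
          have key : 13 + 12 * cU (k + 1) ≤ 13 * (eV (k + 1) + eU (k + 1)) +
              12 * (gV (k + 1) + gU (k + 1)) := by
            rcases hpar with hp | hp
            · rcases t2 with ⟨t2, -⟩ | ⟨t2, -⟩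
              · clear * - q2 t2
                omega
              · have q5 := q3 t2 hp
                clear * - q5 t2
                omega
            · have q5 := q4 hp
              clear * - q2 q5
              omega
          rcases hk with ⟨g1, g2⟩ | ⟨g1, g2⟩ | ⟨g1, g2⟩ | ⟨g1, g2⟩ | ⟨g1, g2⟩
          · clear * - g2 q1 key s1 s3 x3
            omega
          · have q5 := y2' g1
            clear * - g2 q1 key q5 s2 s4 x3
            omega
          · clear * - g2 q1 key s3 x3
            omega
          · have q5 := y2' g1
            clear * - g2 q1 key q5 s4 x3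
            omega
          · clear * - g2 q1 key x3
            omega
        · -- `M V`
          right; right; right; left
          refine ⟨h', ?_⟩
          have q2 := y2 h'
          have q2' := z3 h'
          rcases hk with ⟨g1, g2⟩ | ⟨g1, g2⟩ | ⟨g1, g2⟩ | ⟨g1, g2⟩ | ⟨g1, g2⟩
          · clear * - g2 q1 q2 q2' s1 s3 x3 x4
            omega
          · have q5 := y2' g1
            clear * - g2 q1 q2 q2' q5 s2 s4 x3 x4
            omega
          · clear * - g2 q1 q2 q2' s3 x3 x4
            omega
          · have q5 := y2' g1
            clear * - g2 q1 q2 q2' q5 s4 x3 x4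
            omega
          · clear * - g2 q1 q2 q2' x3 x4
            omega
        · -- `M M`
          right; right; right; right
          refine ⟨h', ?_⟩
          have q2 := w2 h'
          rcases hk with ⟨g1, g2⟩ | ⟨g1, g2⟩ | ⟨g1, g2⟩ | ⟨g1, g2⟩ | ⟨g1, g2⟩
          · clear * - g2 q1 q2 s1 s3 x3 x4
            omega
          · have q5 := y2' g1
            clear * - g2 q1 q2 q5 s2 s4 x3 x4
            omega
          · clear * - g2 q1 q2 s3 x3 x4
            omega
          · have q5 := y2' g1
            clear * - g2 q1 q2 q5 s4 x3 x4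
            omega
          · clear * - g2 q1 q2 x3 x4
            omega
  rcases Nat.eq_zero_or_pos n with rfl | hn
  · simp
  · obtain ⟨k, rfl⟩ : ∃ k, n = k + 1 := ⟨n - 1, by omega⟩
    have hk := main k (by omega)
    have s3 := (tr_le hcV h4V (k + 1) (by omega)).1
    have s4 := (tr_le hcU h4U (k + 1) (by omega)).1
    have y2' := E2 k (by omega)
    rcases hk with ⟨g1, g2⟩ | ⟨g1, g2⟩ | ⟨g1, g2⟩ | ⟨g1, g2⟩ | ⟨g1, g2⟩
    · clear * - g2 hsV
      omega
    · have q5 := y2' g1
      clear * - g2 q5 hsU
      omega
    · clear * - g2 s3
      omega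
    · have q5 := y2' g1
      clear * - g2 q5 s4
      omega
    · clear * - g2
      omega

/-- the number of charged requests -/
lemma pair_sum {n : ℕ} {p : ℕ → ℕ} (h1 : ∀ t, t + 1 < n → p t + p (t + 1) ≤ 3)
    (h2 : n % 2 = 1 → ∀ t, t < n → p t ≤ 1) : 2 * ∑ t ∈ range n, p t ≤ 3 * n := by
  rcases Nat.even_or_odd' n with ⟨m, rfl | rfl⟩
  · have : ∀ k, k ≤ m → ∑ t ∈ range (2 * k), p t ≤ 3 * k := by
      intro k
      induction k with
      | zero => intro _; simp
      | succ k ih =>
        intro hk
        have e : 2 * (k + 1) = 2 * k + 1 + 1 := by ring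
        rw [e, sum_range_succ, sum_range_succ]
        have := ih (by omega)
        have := h1 (2 * k) (by omega)
        omega
    have := this m le_rfl
    omega
  · have h3 : ∑ t ∈ range (2 * m + 1), p t ≤ ∑ t ∈ range (2 * m + 1), 1 :=
      sum_le_sum fun t ht => h2 (by omega) t (mem_range.1 ht)
    simp only [sum_const, card_range, smul_eq_mul, mul_one] at h3
    omega

lemma sum_two (f : ℕ → ℕ) (n : ℕ) :
    ∑ j ∈ range (2 * n), f j = ∑ t ∈ range n, (f (2 * t) + f (2 * t + 1)) := by
  induction n with
  | zero => simp
  | succ n ih =>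
    have e : 2 * (n + 1) = 2 * n + 1 + 1 := by ring
    rw [e, sum_range_succ, sum_range_succ, sum_range_succ, ih]
    ring

end Pool.Agent.Q133.SQ
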