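import Pool.Agent.Q102.SP.Res

set_option autoImplicit false

/-!
# Static trees on perfectly alternating requests

For a static tree `R` with root `z` and a perfectly alternating sequence `X` of length `N` with `d`
alternations let `S` be the sum of the depths in `R` of the requests, and let `L` and `M` be the
numbers of the requests smaller and larger than `z`. We prove by induction on the reference tree that
`13 S ≥ 8 d + L + M - 13 (p + q)` for some `p ≤ L, N / 2` and `q ≤ M, N / 2` with `p + q ≤ 3 N / 4`
(below, `a = 2 p`, `b = 2 q`). Hence `13 S ≥ 8 d - 9 N`.
-/

namespace Pool.Agent.Q133.SQ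

open Pool.Agent.H581R2.Splay Pool.Agent.TH49.Spl Pool.Agent.Q102.SP

/-- the sum of the depths of the requests -/
def sd (R : Tr) (X : List ℕ) : ℕ := (X.map fun x => dep x R).sum

lemma stat_eq (R : Tr) : ∀ X : List ℕ, stat R X = X.length + sd R X := by
  intro X
  induction X with
  | nil => simp [stat, sd]
  | cons x X ih =>
    simp only [stat, sd, List.map_cons, List.sum_cons, List.length_cons] at ih ⊢
    omega

lemma sd_mix (R : Tr) : ∀ (V U : List ℕ), V.length = U.length → sd R (mix V U) = sd R V + sd R U := by
  intro V
  induction V with
  | nil =>
    intro U h
    have : U = [] := List.length_eq_zero_iff.1 (by simpa using h.symm)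
    subst this
    simp [mix, sd]
  | cons v V ih =>
    intro U h
    cases U with
    | nil => simp at h
    | cons u U =>
      simp only [List.length_cons] at h
      have := ih U (by omega)
      simp only [sd, mix, List.map_cons, List.sum_cons] at this ⊢
      omega

lemma count_mix (p : ℕ → Bool) : ∀ (V U : List ℕ), V.length = U.length →
    (mix V U).countP p = V.countP p + U.countP p := by
  intro V
  induction V with
  | nil =>
    intro U h
    have : U = [] := List.length_eq_zero_iff.1 (by simpa using h.symm)
    subst this
    simp [mix]
  | cons v V ih =>
    intro U h
    cases U with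
    | nil => simp at h
    | cons u U =>
      simp only [List.length_cons] at h
      have := ih U (by omega)
      simp only [mix, List.countP_cons] at this ⊢
      omega

/-- a lower bound for the sum of the depths -/
lemma sd_ge (R R' : Tr) (p : ℕ → Bool) (e c : ℕ) : ∀ (X : List ℕ),
    (∀ x ∈ X, dep x R' + (if p x then e else 0) + c ≤ dep x R) →
    sd R' X + e * X.countP p + c * X.length ≤ sd R X := by
  intro X
  induction X with
  | nil => intro _; simp [sd]
  | cons x X ih =>
    intro h
    have h1 := ih fun y hy => h y (List.mem_cons_of_mem _ hy)
    have h2 := h x (by simp)
    simp only [sd, List.map_cons, List.sum_cons, List.length_cons, List.countP_cons] at h1 ⊢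
    by_cases hp : p x = true
    · simp only [hp, if_true] at h2 ⊢
      nlinarith
    · simp only [hp] at h2 ⊢
      simp only [Bool.false_eq_true, if_false] at h2 ⊢
      nlinarith

lemma dep_right {z v : ℕ} (l r : Tr) (h : z < v) : dep v (Tr.node z l r) = dep v r + 1 := by
  simp only [dep]
  rw [if_neg (by omega), if_neg (by omega)]

lemma dep_left {z v : ℕ} (l r : Tr) (h : v < z) : dep v (Tr.node z l r) = dep v l + 1 := by
  simp only [dep]
  rw [if_neg (by omega), if_pos (by omega)]

/-- a lower bound for the sum of the depths -/
lemma sd_ge' (R R' : Tr) (c : ℕ) (X : List ℕ) (h : ∀ x ∈ X, dep x R' + c ≤ dep x R) :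
    sd R' X + c * X.length ≤ sd R X := by
  have := sd_ge R R' (fun _ => false) 0 c X (fun x hx => by simpa using h x hx)
  simpa using this

/-- the invariant -/
def Inv (R : Tr) (X : List ℕ) (d : ℕ) : Prop :=
  ∃ (z : ℕ) (l r : Tr) (a b : ℕ), R = Tr.node z l r ∧
    a ≤ 2 * X.countP (fun x => decide (x < z)) ∧ b ≤ 2 * X.countP (fun x => decide (z < x)) ∧
    a ≤ X.length ∧ b ≤ X.length ∧ 2 * (a + b) ≤ 3 * X.length ∧
    16 * d + 2 * (X.countP (fun x => decide (x < z)) + X.countP (fun x => decide (z < x))) ≤
      26 * sd R X + 13 * (a + b)

lemma Inv.weak {R : Tr} {X : List ℕ} {d : ℕ} (h : Inv R X d) :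
    16 * d ≤ 26 * sd R X + 18 * X.length := by
  obtain ⟨z, l, r, a, b, -, h1, h2, h3, h4, h5, h6⟩ := h
  omega

lemma count_all {p : ℕ → Bool} {X : List ℕ} (h : ∀ x ∈ X, p x = true) : X.countP p = X.length :=
  List.countP_eq_length.2 h

lemma count_none {p : ℕ → Bool} {X : List ℕ} (h : ∀ x ∈ X, ¬ p x = true) : X.countP p = 0 :=
  List.countP_eq_zero.2 h

lemma count_le {p q : ℕ → Bool} (h : ∀ x, p x = true → q x = false) : ∀ X : List ℕ,
    X.countP p + X.countP q ≤ X.length := by
  intro X
  induction X with
  | nil => simp
  | cons x X ih =>
    simp only [List.countP_cons, List.length_cons]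
    by_cases hp : p x = true
    · simp only [hp, h x hp, if_true, Bool.false_eq_true, if_false]
      omega
    · simp only [hp, Bool.false_eq_true, if_false]
      split_ifs <;> omega

/-- the invariant holds for all static trees -/
theorem inv {T : Tr} {X : List ℕ} {d : ℕ} (h : Alternating T X d) :
    ∀ R : Tr, IsBST R → (∀ k ∈ keys T, k ∈ keys R) → Inv R X d := by
  induction h with
  | single k N =>
    intro R hb hk
    have hkR : k ∈ keys R := hk k (by simp [keys])
    cases R with
    | nil => simp [keys] at hkR
    | node z l r =>
      refine ⟨z, l, r, 0, 0, rfl, by omega, by omega, by omega, by omega, by omega, ?_⟩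
      by_cases hz : k = z
      · subst hz
        have h1 : (List.replicate N k).countP (fun x => decide (x < k)) = 0 :=
          count_none fun x hx => by
            rw [List.eq_of_mem_replicate hx]; simp
        have h2 : (List.replicate N k).countP (fun x => decide (k < x)) = 0 :=
          count_none fun x hx => by
            rw [List.eq_of_mem_replicate hx]; simp
        omega
      · have h1 := sd_ge' (Tr.node z l r) Tr.nil 1 (List.replicate N k) (by
          intro x hx
          rw [List.eq_of_mem_replicate hx]
          simp only [dep]
          rw [if_neg hz]
          split_ifs <;> omega)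
        have h2 := count_le (p := fun x => decide (x < z)) (q := fun x => decide (z < x))
          (by intro x hx; simp only [decide_eq_true_eq, decide_eq_false_iff_not] at hx ⊢; omega)
          (List.replicate N k)
        simp only [List.length_replicate] at h1 h2 ⊢
        omega
  | join s y A C TR U V dU dV h1 h2 hl hL hR ih1 ih2 =>
    intro R hb hk
    have hU : ∀ u ∈ U, u < s := fun u hu => hL u (h1.mem u hu)
    have hV : ∀ v ∈ V, s < v := fun v hv => hR v (h2.mem v hv)
    have i1 := ih1 (lo s R) (bst_lo hb) (by
      intro k hkk
      rw [keys_lo s R hb, List.mem_filter]
      refine ⟨hk k ?_, by simpa using hL k hkk⟩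
      simp only [keys, List.mem_append, List.mem_cons] at hkk ⊢
      tauto)
    have i2 := ih2 (hi s R) (bst_hi hb) (by
      intro k hkk
      rw [keys_hi s R hb, List.mem_filter]
      refine ⟨hk k ?_, by simpa using hR k hkk⟩
      simp only [keys, List.mem_append, List.mem_cons]
      tauto)
    have hyO : y ∈ keys R := hk y (by simp [keys])
    have hlen := mix_length V U hl
    cases R with
    | nil => simp [keys] at hyO
    | node z l r =>
      have hsd := sd_mix (Tr.node z l r) V U hl
      have hc1 := count_mix (fun x => decide (x < z)) V U hl
      have hc2 := count_mix (fun x => decide (z < x)) V U hl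
      rcases lt_trichotomy z s with hz | hz | hz
      · -- the root is on the left
        have e1 : lo s (Tr.node z l r) = Tr.node z l (lo s r) := by simp only [lo, if_pos hz]
        have e2 : hi s (Tr.node z l r) = hi s r := by
          simp only [hi]
          rw [if_neg (by omega)]
        rw [e1] at i1
        rw [e2] at i2
        have hr : r ≠ Tr.nil := by
          rintro rfl
          obtain ⟨z', l', r', -, -, h, -⟩ := i2
          simp [hi] at h
        have w2 := i2.weak
        obtain ⟨z', l', r', a, b, he, j1, j2, j3, j4, j5, j6⟩ := i1
        obtain ⟨rfl, rfl, rfl⟩ : z = z' ∧ l = l' ∧ lo s r = r' := by simpa using he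
        have cV1 : V.countP (fun x => decide (x < z)) = 0 := count_none fun x hx => by
          have := hV x hx
          simp only [decide_eq_true_eq]; omega
        have cV2 : V.countP (fun x => decide (z < x)) = V.length := count_all fun x hx => by
          have := hV x hx
          simp only [decide_eq_true_eq]; omega
        have cU : U.countP (fun x => decide (z < x)) ≤ U.length := List.countP_le_length
        have key : sd (Tr.node z l (lo s r)) U + sd (hi s r) V + U.length +
            U.countP (fun x => decide (z < x)) ≤ sd (Tr.node z l r) U + sd (Tr.node z l r) V := by
          by_cases ht : top s r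
          · have a1 := sd_ge (Tr.node z l r) (Tr.node z l (lo s r)) (fun x => decide (z < x)) 1 0 U (by
              intro u hu
              have h5 := dep_lo s u r (hU u hu)
              rw [if_pos ht] at h5
              simp only [dep, decide_eq_true_eq]
              split_ifs <;> omega)
            have a2 := sd_ge' (Tr.node z l r) (hi s r) 1 V (by
              intro v hv
              have h4 := hV v hv
              have h5 := dep_hi_le s v r h4
              rw [dep_right l r (by omega)]
              omega)
            omega
          · have a1 := sd_ge' (Tr.node z l r) (Tr.node z l (lo s r)) 0 U (by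
              intro u hu
              have h5 := dep_lo_le s u r (hU u hu)
              simp only [dep]
              split_ifs <;> omega)
            have a2 := sd_ge' (Tr.node z l r) (hi s r) 2 V (by
              intro v hv
              have h4 := hV v hv
              have h5 := dep_hi s v r h4 hr
              rw [if_neg ht] at h5
              rw [dep_right l r (by omega)]
              omega)
            omega
        refine ⟨z, l, r, a, 2 * U.length, rfl, ?_, ?_, ?_, ?_, ?_, ?_⟩ <;> omega
      · -- the root is the separator
        subst hz
        have e1 : lo z (Tr.node z l r) = lo z l := by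
          simp only [lo]
          rw [if_neg (by omega)]
        have e2 : hi z (Tr.node z l r) = hi z r := by
          simp only [hi]
          rw [if_neg (by omega)]
        rw [e1] at i1
        rw [e2] at i2
        have w1 := i1.weak
        have w2 := i2.weak
        have cV1 : V.countP (fun x => decide (x < z)) = 0 := count_none fun x hx => by
          have := hV x hx
          simp only [decide_eq_true_eq]; omega
        have cV2 : V.countP (fun x => decide (z < x)) = V.length := count_all fun x hx => by
          have := hV x hx
          simp only [decide_eq_true_eq]; omega
        have cU1 : U.countP (fun x => decide (x < z)) = U.length := count_all fun x hx => by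
          have := hU x hx
          simp only [decide_eq_true_eq]; omega
        have cU2 : U.countP (fun x => decide (z < x)) = 0 := count_none fun x hx => by
          have := hU x hx
          simp only [decide_eq_true_eq]; omega
        have a1 := sd_ge' (Tr.node z l r) (lo z l) 1 U (by
          intro u hu
          have h4 := hU u hu
          have h5 := dep_lo_le z u l h4
          rw [dep_left l r (by omega)]
          omega)
        have a2 := sd_ge' (Tr.node z l r) (hi z r) 1 V (by
          intro v hv
          have h4 := hV v hv
          have h5 := dep_hi_le z v r h4
          rw [dep_right l r (by omega)]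
          omega)
        refine ⟨z, l, r, 2 * U.length, U.length, rfl, ?_, ?_, ?_, ?_, ?_, ?_⟩ <;> omega
      · -- the root is on the right
        have e1 : lo s (Tr.node z l r) = lo s l := by
          simp only [lo]
          rw [if_neg (by omega)]
        have e2 : hi s (Tr.node z l r) = Tr.node z (hi s l) r := by simp only [hi, if_pos hz]
        rw [e1] at i1
        rw [e2] at i2
        have hr : l ≠ Tr.nil := by
          rintro rfl
          obtain ⟨z', l', r', -, -, h, -⟩ := i1
          simp [lo] at h
        have w1 := i1.weak
        obtain ⟨z', l', r', a, b, he, j1, j2, j3, j4, j5, j6⟩ := i2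
        obtain ⟨rfl, rfl, rfl⟩ : z = z' ∧ hi s l = l' ∧ r = r' := by simpa using he
        have cU1 : U.countP (fun x => decide (x < z)) = U.length := count_all fun x hx => by
          have := hU x hx
          simp only [decide_eq_true_eq]; omega
        have cU2 : U.countP (fun x => decide (z < x)) = 0 := count_none fun x hx => by
          have := hU x hx
          simp only [decide_eq_true_eq]; omega
        have cV : V.countP (fun x => decide (x < z)) ≤ V.length := List.countP_le_length
        have key : sd (lo s l) U + sd (Tr.node z (hi s l) r) V + U.length +
            V.countP (fun x => decide (x < z)) ≤ sd (Tr.node z l r) U + sd (Tr.node z l r) V := by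
          by_cases ht : top s l
          · have a1 := sd_ge' (Tr.node z l r) (lo s l) 2 U (by
              intro u hu
              have h4 := hU u hu
              have h5 := dep_lo s u l h4
              rw [if_pos ht] at h5
              rw [dep_left l r (by omega)]
              omega)
            have a2 := sd_ge' (Tr.node z l r) (Tr.node z (hi s l) r) 0 V (by
              intro v hv
              have h5 := dep_hi_le s v l (hV v hv)
              simp only [dep]
              split_ifs <;> omega)
            omega
          · have a1 := sd_ge' (Tr.node z l r) (lo s l) 1 U (by
              intro u hu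
              have h4 := hU u hu
              have h5 := dep_lo_le s u l h4
              rw [dep_left l r (by omega)]
              omega)
            have a2 := sd_ge (Tr.node z l r) (Tr.node z (hi s l) r) (fun x => decide (x < z)) 1 0 V (by
              intro v hv
              have h5 := dep_hi s v l (hV v hv) hr
              rw [if_neg ht] at h5
              simp only [dep, decide_eq_true_eq]
              split_ifs <;> omega)
            omega
        refine ⟨z, l, r, 2 * U.length, b, rfl, ?_, ?_, ?_, ?_, ?_, ?_⟩ <;> omega

/-- the bound for static trees -/
theorem stat_ge {T : Tr} {X : List ℕ} {d : ℕ} (h : Alternating T X d) (R : Tr) (hb : IsBST R)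
    (hk : ∀ k ∈ keys T, k ∈ keys R) : 4 * X.length + 8 * d ≤ 13 * stat R X := by
  have h1 := (inv h R hb hk).weak
  have h2 := stat_eq R X
  omega

end Pool.Agent.Q133.SQ
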