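import Pool.Agent.Q133.SQ.TreeL
import Pool.Agent.Q133.SQ.Scan

set_option autoImplicit false

/-!
# Executions as timelines
-/

namespace Pool.Agent.Q133.SQ

open Pool.Agent.H581R2.Splay Pool.Agent.TH49.Spl Pool.Agent.Q102.SP
open Finset Classical

/-- the start of the slot of a request -/
def st (r : ℕ → ℕ) : ℕ → ℕ
  | 0 => 0
  | t + 1 => r t

/-- the number of rotations before time `R` -/
noncomputable def rho (τ : ℕ → Tr) (R : ℕ) : ℕ := ∑ i ∈ range R, if τ i = τ (i + 1) then 0 else 1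

/-- a rotation between the two sides -/
def mixd (s : ℕ) (τ : ℕ → Tr) (i : ℕ) : Prop :=
  τ i ≠ τ (i + 1) ∧ lo s (τ i) = lo s (τ (i + 1)) ∧ hi s (τ i) = hi s (τ (i + 1))

/-- the number of rotations between the two sides -/
noncomputable def mxc (s : ℕ) (τ : ℕ → Tr) (k : ℕ) : ℕ := ∑ i ∈ range k, if mixd s τ i then 1 else 0

/-- the steps of a timeline -/
def Stp (τ : ℕ → Tr) : Prop := ∀ i, τ i = τ (i + 1) ∨ ∃ z, Rot (τ i) (τ (i + 1)) z

lemma rotN_zero {T T' : Tr} (h : RotN 0 T T') : T = T' := by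
  cases h with
  | refl => rfl

lemma rotN_le_one {e : ℕ} {T T' : Tr} (h : RotN e T T') (he : e ≤ 1) : T = T' ∨ ∃ z, Rot T T' z := by
  cases h with
  | refl => exact Or.inl rfl
  | step e z T T' T'' h1 h2 =>
    obtain rfl : e = 0 := by omega
    cases h2 with
    | refl => exact Or.inr ⟨z, h1⟩

lemma stp_split (s : ℕ) {τ : ℕ → Tr} (hb : ∀ i, IsBST (τ i)) (h : Stp τ) (i : ℕ) :
    (lo s (τ i) = lo s (τ (i + 1)) ∨ ∃ z, Rot (lo s (τ i)) (lo s (τ (i + 1))) z) ∧
    (hi s (τ i) = hi s (τ (i + 1)) ∨ ∃ z, Rot (hi s (τ i)) (hi s (τ (i + 1))) z) ∧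
    (if lo s (τ i) = lo s (τ (i + 1)) then 0 else 1) + (if hi s (τ i) = hi s (τ (i + 1)) then 0 else 1) +
      (if mixd s τ i then 1 else 0) ≤ (if τ i = τ (i + 1) then 0 else 1) := by
  rcases h i with h1 | ⟨z, h1⟩
  · refine ⟨Or.inl (by rw [← h1]), Or.inl (by rw [← h1]), ?_⟩
    have : ¬ mixd s τ i := fun h2 => h2.1 h1
    rw [if_pos (by rw [← h1]), if_pos (by rw [← h1]), if_neg this]
    omega
  · by_cases h0 : τ i = τ (i + 1)
    · refine ⟨Or.inl (by rw [← h0]), Or.inl (by rw [← h0]), ?_⟩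
      have : ¬ mixd s τ i := fun h2 => h2.1 h0
      rw [if_pos (by rw [← h0]), if_pos (by rw [← h0]), if_neg this]
      omega
    · obtain ⟨el, eh, i1, i2, i3⟩ := rot_split s h1 (hb i)
      have i4 : el + eh ≤ 1 := by omega
      refine ⟨rotN_le_one i1 (by omega), rotN_le_one i2 (by omega), ?_⟩
      rw [if_neg h0]
      by_cases h2 : lo s (τ i) = lo s (τ (i + 1))
      · rw [if_pos h2]
        by_cases h3 : hi s (τ i) = hi s (τ (i + 1))
        · rw [if_pos h3]
          split_ifs <;> omega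
        · have : ¬ mixd s τ i := fun h4 => h3 h4.2.2
          rw [if_neg h3, if_neg this]
      · have : ¬ mixd s τ i := fun h4 => h2 h4.2.1
        have h3 : hi s (τ i) = hi s (τ (i + 1)) := by
          have : eh = 0 := by
            by_contra hh
            have : el = 0 := by omega
            subst this
            exact h2 (rotN_zero i1)
          subst this
          exact rotN_zero i2
        rw [if_neg h2, if_pos h3, if_neg this]

lemma rho_split (s : ℕ) {τ : ℕ → Tr} (hb : ∀ i, IsBST (τ i)) (h : Stp τ) (R : ℕ) :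
    rho (fun i => lo s (τ i)) R + rho (fun i => hi s (τ i)) R + mxc s τ R ≤ rho τ R := by
  unfold rho mxc
  rw [← sum_add_distrib, ← sum_add_distrib]
  exact sum_le_sum fun i _ => (stp_split s hb h i).2.2

/-- a slot without rotations between the sides -/
def pure' (s : ℕ) (τ : ℕ → Tr) (a b : ℕ) : Prop := ∀ i, a ≤ i → i < b → ¬ mixd s τ i

lemma mxc_mono (s : ℕ) (τ : ℕ → Tr) {a b : ℕ} (h : a ≤ b) : mxc s τ a ≤ mxc s τ b :=
  sum_le_sum_of_subset (range_subset_range.2 h)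

lemma mxc_lt (s : ℕ) (τ : ℕ → Tr) {a b : ℕ} (hab : a ≤ b) (h : ¬ pure' s τ a b) :
    mxc s τ a + 1 ≤ mxc s τ b := by
  unfold pure' at h
  push Not at h
  obtain ⟨i, h1, h2, h3⟩ := h
  have h4 : mxc s τ (i + 1) = mxc s τ i + 1 := by
    unfold mxc
    rw [sum_range_succ, if_pos h3]
  have h5 := mxc_mono s τ h1
  have h6 := mxc_mono s τ (show i + 1 ≤ b from h2)
  omega

lemma st_le {r : ℕ → ℕ} (hr : ∀ t, r t ≤ r (t + 1)) (t : ℕ) : st r t ≤ r t := by
  cases t with
  | zero => exact Nat.zero_le _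
  | succ t => exact hr t

lemma mxc_slots (s : ℕ) (τ : ℕ → Tr) {r : ℕ → ℕ} (hr : ∀ t, r t ≤ r (t + 1)) (J : ℕ) :
    ∑ j ∈ range J, (if pure' s τ (st r j) (r j) then 0 else 1) ≤ mxc s τ (st r J) := by
  induction J with
  | zero => simp
  | succ J ih =>
    rw [sum_range_succ]
    change _ ≤ mxc s τ (r J)
    by_cases h : pure' s τ (st r J) (r J)
    · rw [if_pos h]
      have := mxc_mono s τ (st_le hr J)
      omega
    · rw [if_neg h]
      have := mxc_lt s τ (st_le hr J) h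
      omega

/-- the side of the root is constant in a slot without rotations between the sides -/
lemma side_const (s : ℕ) {τ : ℕ → Tr} (hb : ∀ i, IsBST (τ i)) (h : Stp τ) {a b : ℕ}
    (hp : pure' s τ a b) : ∀ i, a ≤ i → i ≤ b → (root (τ i) < s ↔ root (τ a) < s) := by
  intro i hi
  induction i, hi using Nat.le_induction with
  | base => intro _; exact Iff.rfl
  | succ i hi ih =>
    intro hib
    rw [← ih (by omega)]
    rcases h i with h1 | ⟨z, h1⟩
    · rw [← h1]
    · by_contra hc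
      have h2 := rot_root (s := s) h1 (hb i) (fun h3 => hc h3.symm)
      by_cases h0 : τ i = τ (i + 1)
      · rw [← h0] at hc
        exact hc Iff.rfl
      · exact hp i hi (by omega) ⟨h0, h2.1, h2.2⟩

lemma GE_const (s u : ℕ) (hu : u < s) {τ : ℕ → Tr} (hb : ∀ i, IsBST (τ i)) (h : Stp τ) {a b : ℕ}
    (hp : pure' s τ a b) (h0 : hasGE s u (τ a)) : ∀ i, a ≤ i → i ≤ b → hasGE s u (τ i) := by
  intro i hi
  induction i, hi using Nat.le_induction with
  | base => intro _; exact h0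
  | succ i hi ih =>
    intro hib
    have h4 := ih (by omega)
    rcases h i with h1 | ⟨z, h1⟩
    · rw [← h1]; exact h4
    · rcases rot_GE hu h1 (hb i) h4 with h5 | h5
      · exact h5
      · by_cases h0 : τ i = τ (i + 1)
        · rw [← h0]; exact h4
        · exact absurd ⟨h0, h5.1, h5.2⟩ (hp i hi (by omega))

lemma LE_const (s v : ℕ) (hv : s < v) {τ : ℕ → Tr} (hb : ∀ i, IsBST (τ i)) (h : Stp τ) {a b : ℕ}
    (hp : pure' s τ a b) (h0 : hasLE s v (τ a)) : ∀ i, a ≤ i → i ≤ b → hasLE s v (τ i) := by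
  intro i hi
  induction i, hi using Nat.le_induction with
  | base => intro _; exact h0
  | succ i hi ih =>
    intro hib
    have h4 := ih (by omega)
    rcases h i with h1 | ⟨z, h1⟩
    · rw [← h1]; exact h4
    · rcases rot_LE hv h1 (hb i) h4 with h5 | h5
      · exact h5
      · by_cases h0 : τ i = τ (i + 1)
        · rw [← h0]; exact h4
        · exact absurd ⟨h0, h5.1, h5.2⟩ (hp i hi (by omega))

lemma root_lo {s : ℕ} {T : Tr} (h : root T < s) (hn : T ≠ Tr.nil) : root (lo s T) = root T := by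
  cases T with
  | nil => exact absurd rfl hn
  | node a l r =>
    simp only [root] at h
    simp only [lo, if_pos h, root]

lemma root_hi {s : ℕ} {T : Tr} (h : s < root T) : root (hi s T) = root T := by
  cases T with
  | nil => rfl
  | node a l r =>
    simp only [root] at h
    simp only [hi, if_pos h, root]

/-- the invariant -/
def DInv (τ : ℕ → Tr) (r : ℕ → ℕ) (R : ℕ) (x : ℕ → ℕ) (N d : ℕ) : Prop :=
  ∃ c : ℕ → ℕ, (∀ t, c t ≤ 1) ∧
    (∀ t, t < N → t % 2 = 0 → c t = 1 → ∀ i, st r t ≤ i → i ≤ r t → root (τ i) < x t) ∧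
    (∀ t, t < N → t % 2 = 1 → c t = 1 → ∀ i, st r t ≤ i → i ≤ r t → x t < root (τ i)) ∧
    (∀ t, t + 3 < N → c t + c (t + 1) + c (t + 2) + c (t + 3) ≤ 3) ∧
    4 * ∑ t ∈ range N, c t ≤ 3 * N ∧ (N % 2 = 1 → ∀ t, t < N → c t = 0) ∧
    8 * d ≤ 13 * ∑ t ∈ range N, dep (x t) (τ (r t)) + 52 * rho τ R + 12 * ∑ t ∈ range N, c t

/-- the type of a slot -/
noncomputable def typ (s : ℕ) (τ : ℕ → Tr) (r : ℕ → ℕ) (j : ℕ) : ℕ :=
  if pure' s τ (st r j) (r j) then (if root (τ (r j)) < s then 0 else 1) else 2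

lemma typ_le (s : ℕ) (τ : ℕ → Tr) (r : ℕ → ℕ) (j : ℕ) : typ s τ r j ≤ 2 := by
  unfold typ
  split_ifs <;> omega

lemma typ_pure {s : ℕ} {τ : ℕ → Tr} {r : ℕ → ℕ} {j : ℕ} (h : typ s τ r j ≠ 2) :
    pure' s τ (st r j) (r j) := by
  unfold typ at h
  by_contra h1
  rw [if_neg h1] at h
  exact h rfl

lemma typ_zero {s : ℕ} {τ : ℕ → Tr} (hb : ∀ i, IsBST (τ i)) (hs : Stp τ) {r : ℕ → ℕ}
    (hr : ∀ t, r t ≤ r (t + 1)) {j : ℕ} (h : typ s τ r j = 0) :
    ∀ i, st r j ≤ i → i ≤ r j → root (τ i) < s := by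
  have h1 : pure' s τ (st r j) (r j) := typ_pure (by omega)
  unfold typ at h
  rw [if_pos h1] at h
  have h2 : root (τ (r j)) < s := by
    by_contra h3
    rw [if_neg h3] at h
    omega
  intro i h3 h4
  have e1 := side_const s hb hs h1 i h3 h4
  have e2 := side_const s hb hs h1 (r j) (st_le hr j) le_rfl
  exact e1.2 (e2.1 h2)

lemma typ_one {s : ℕ} {τ : ℕ → Tr} (hb : ∀ i, IsBST (τ i)) (hs : Stp τ) {r : ℕ → ℕ}
    (hr : ∀ t, r t ≤ r (t + 1)) {j : ℕ} (h : typ s τ r j = 1) :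
    ∀ i, st r j ≤ i → i ≤ r j → ¬ root (τ i) < s := by
  have h1 : pure' s τ (st r j) (r j) := typ_pure (by omega)
  unfold typ at h
  rw [if_pos h1] at h
  have h2 : ¬ root (τ (r j)) < s := by
    intro h3
    rw [if_pos h3] at h
    omega
  intro i h3 h4
  have e1 := side_const s hb hs h1 i h3 h4
  have e2 := side_const s hb hs h1 (r j) (st_le hr j) le_rfl
  intro h5
  exact h2 (e2.2 (e1.1 h5))

lemma typ_adj {s : ℕ} {τ : ℕ → Tr} (hb : ∀ i, IsBST (τ i)) (hs : Stp τ) {r : ℕ → ℕ}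
    (hr : ∀ t, r t ≤ r (t + 1)) {j : ℕ} (h : typ s τ r j ≠ 2) (h' : typ s τ r (j + 1) ≠ 2) :
    typ s τ r j = typ s τ r (j + 1) := by
  have a1 := typ_le s τ r j
  have a2 := typ_le s τ r (j + 1)
  have e : st r (j + 1) = r j := rfl
  rcases (show typ s τ r j = 0 ∨ typ s τ r j = 1 by omega) with b | b <;>
    rcases (show typ s τ r (j + 1) = 0 ∨ typ s τ r (j + 1) = 1 by omega) with b' | b'
  · rw [b, b']
  · exact absurd (typ_zero hb hs hr b (r j) (st_le hr j) le_rfl)
      (typ_one hb hs hr b' (r j) (by rw [e]) (hr j))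
  · exact absurd (typ_zero hb hs hr b' (r j) (by rw [e]) (hr j))
      (typ_one hb hs hr b (r j) (st_le hr j) le_rfl)
  · rw [b, b']

end Pool.Agent.Q133.SQ
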