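import Pool.Agent.Q133.SQ.Stat

set_option autoImplicit false

/-!
# Ancestors on the other side of the separator
-/

namespace Pool.Agent.Q133.SQ

open Pool.Agent.H581R2.Splay Pool.Agent.TH49.Spl Pool.Agent.Q102.SP

/-- the key at the root -/
def root : Tr → ℕ
  | Tr.nil => 0
  | Tr.node a _ _ => a

/-- some key `≥ s` lies above `u` -/
def hasGE (s u : ℕ) : Tr → Prop
  | Tr.nil => False
  | Tr.node a l r => s ≤ a ∨ (u < a ∧ hasGE s u l) ∨ (a < u ∧ hasGE s u r)

/-- some key `≤ s` lies above `v` -/
def hasLE (s v : ℕ) : Tr → Prop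
  | Tr.nil => False
  | Tr.node a l r => a ≤ s ∨ (v < a ∧ hasLE s v l) ∨ (a < v ∧ hasLE s v r)

lemma hasGE_key {s u : ℕ} : ∀ {t : Tr}, hasGE s u t → ∃ k ∈ keys t, s ≤ k := by
  intro t
  induction t with
  | nil => intro h; exact absurd h id
  | node a l r ihl ihr =>
    intro h
    rcases h with h | ⟨_, h⟩ | ⟨_, h⟩
    · exact ⟨a, by simp [keys], h⟩
    · obtain ⟨k, hk, h2⟩ := ihl h
      exact ⟨k, by simp [keys, hk], h2⟩
    · obtain ⟨k, hk, h2⟩ := ihr h
      exact ⟨k, by simp [keys, hk], h2⟩

lemma hasLE_key {s v : ℕ} : ∀ {t : Tr}, hasLE s v t → ∃ k ∈ keys t, k ≤ s := by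
  intro t
  induction t with
  | nil => intro h; exact absurd h id
  | node a l r ihl ihr =>
    intro h
    rcases h with h | ⟨_, h⟩ | ⟨_, h⟩
    · exact ⟨a, by simp [keys], h⟩
    · obtain ⟨k, hk, h2⟩ := ihl h
      exact ⟨k, by simp [keys, hk], h2⟩
    · obtain ⟨k, hk, h2⟩ := ihr h
      exact ⟨k, by simp [keys, hk], h2⟩

lemma hasGE_dep {s u : ℕ} (hu : u < s) : ∀ {t : Tr}, IsBST t → hasGE s u t →
    dep u (lo s t) + 1 ≤ dep u t := by
  intro t
  induction t with
  | nil => intro _ h; exact absurd h id
  | node a l r ihl ihr =>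
    intro hb h
    obtain ⟨hl, hr, h1, h2⟩ := bst_parts hb
    by_cases ha : a < s
    · have e : lo s (Tr.node a l r) = Tr.node a l (lo s r) := by simp only [lo, if_pos ha]
      rw [e]
      rcases h with h | ⟨_, h⟩ | ⟨h3, h⟩
      · omega
      · obtain ⟨k, hk, h4⟩ := hasGE_key h
        have := h1 k hk
        omega
      · rw [dep_right _ _ h3, dep_right _ _ h3]
        have := ihr hr h
        omega
    · have e : lo s (Tr.node a l r) = lo s l := by simp only [lo, if_neg ha]
      rw [e, dep_left _ _ (by omega)]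
      have := dep_lo_le s u l hu
      omega

lemma hasLE_dep {s v : ℕ} (hv : s < v) : ∀ {t : Tr}, IsBST t → hasLE s v t →
    dep v (hi s t) + 1 ≤ dep v t := by
  intro t
  induction t with
  | nil => intro _ h; exact absurd h id
  | node a l r ihl ihr =>
    intro hb h
    obtain ⟨hl, hr, h1, h2⟩ := bst_parts hb
    by_cases ha : s < a
    · have e : hi s (Tr.node a l r) = Tr.node a (hi s l) r := by simp only [hi, if_pos ha]
      rw [e]
      rcases h with h | ⟨h3, h⟩ | ⟨_, h⟩
      · omega
      · rw [dep_left _ _ h3, dep_left _ _ h3]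
        have := ihl hl h
        omega
      · obtain ⟨k, hk, h4⟩ := hasLE_key h
        have := h2 k hk
        omega
    · have e : hi s (Tr.node a l r) = hi s r := by simp only [hi, if_neg ha]
      rw [e, dep_right _ _ (by omega)]
      have := dep_hi_le s v r hv
      omega

/-- a rotation keeps the ancestor, or it is a rotation between the two sides -/
lemma rot_GE {s u : ℕ} (hu : u < s) {T T' : Tr} {z : ℕ} (h : Rot T T' z) : IsBST T →
    hasGE s u T → hasGE s u T' ∨ (lo s T = lo s T' ∧ hi s T = hi s T') := by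
  induction h with
  | right a b A B C =>
    intro hb hg
    obtain ⟨h1, h2, h3, h4⟩ := bst_parts hb
    have hba : b < a := h3 b (by simp [keys])
    by_cases h5 : s ≤ b
    · left; left; exact h5
    · by_cases h6 : s ≤ a
      · right
        constructor
        · simp only [lo, if_neg (show ¬ a < s by omega), if_pos (show b < s by omega)]
        · rcases Nat.lt_or_ge s a with q2 | q2
          · simp only [hi, if_neg (show ¬ s < b by omega), if_pos q2]
          · simp only [hi, if_neg (show ¬ s < b by omega), if_neg (show ¬ s < a by omega)]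
      · left
        simp only [hasGE] at hg ⊢
        rcases hg with hg | ⟨h7, hg | ⟨h8, hg⟩ | ⟨h8, hg⟩⟩ | ⟨h7, hg⟩
        · omega
        · omega
        · exact Or.inr (Or.inl ⟨h8, hg⟩)
        · exact Or.inr (Or.inr ⟨h8, Or.inr (Or.inl ⟨h7, hg⟩)⟩)
        · exact Or.inr (Or.inr ⟨by omega, Or.inr (Or.inr ⟨h7, hg⟩)⟩)
  | left a b A B C =>
    intro hb hg
    obtain ⟨h1, h2, h3, h4⟩ := bst_parts hb
    have hba : b < a := h4 a (by simp [keys])
    by_cases h5 : s ≤ a
    · left; left; exact h5
    · left
      simp only [hasGE] at hg ⊢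
      rcases hg with hg | ⟨h7, hg⟩ | ⟨h7, hg | ⟨h8, hg⟩ | ⟨h8, hg⟩⟩
      · omega
      · exact Or.inr (Or.inl ⟨by omega, Or.inr (Or.inl ⟨h7, hg⟩)⟩)
      · omega
      · exact Or.inr (Or.inl ⟨h8, Or.inr (Or.inr ⟨h7, hg⟩)⟩)
      · exact Or.inr (Or.inr ⟨h8, hg⟩)
  | inl a L L' R z h ih =>
    intro hb hg
    obtain ⟨h1, h2, h3, h4⟩ := bst_parts hb
    by_cases h5 : s ≤ a
    · left; left; exact h5
    · left
      rcases hg with hg | ⟨h7, hg⟩ | ⟨h7, hg⟩
      · omega
      · obtain ⟨k, hk, h6⟩ := hasGE_key hg
        have := h3 k hk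
        omega
      · exact Or.inr (Or.inr ⟨h7, hg⟩)
  | inr a L R R' z h ih =>
    intro hb hg
    obtain ⟨h1, h2, h3, h4⟩ := bst_parts hb
    by_cases h5 : s ≤ a
    · left; left; exact h5
    · rcases hg with hg | ⟨h7, hg⟩ | ⟨h7, hg⟩
      · omega
      · exact Or.inl (Or.inr (Or.inl ⟨h7, hg⟩))
      · rcases ih h2 hg with h8 | ⟨h8, h9⟩
        · exact Or.inl (Or.inr (Or.inr ⟨h7, h8⟩))
        · right
          constructor
          · simp only [lo, if_pos (show a < s by omega), h8]
          · simp only [hi, if_neg (show ¬ s < a by omega), h9]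

lemma rot_LE {s v : ℕ} (hv : s < v) {T T' : Tr} {z : ℕ} (h : Rot T T' z) : IsBST T →
    hasLE s v T → hasLE s v T' ∨ (lo s T = lo s T' ∧ hi s T = hi s T') := by
  induction h with
  | right a b A B C =>
    intro hb hg
    obtain ⟨h1, h2, h3, h4⟩ := bst_parts hb
    have hba : b < a := h3 b (by simp [keys])
    by_cases h5 : b ≤ s
    · left; left; exact h5
    · left
      simp only [hasLE] at hg ⊢
      rcases hg with hg | ⟨h7, hg | ⟨h8, hg⟩ | ⟨h8, hg⟩⟩ | ⟨h7, hg⟩
      · omega
      · omega
      · exact Or.inr (Or.inl ⟨h8, hg⟩)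
      · exact Or.inr (Or.inr ⟨h8, Or.inr (Or.inl ⟨h7, hg⟩)⟩)
      · exact Or.inr (Or.inr ⟨by omega, Or.inr (Or.inr ⟨h7, hg⟩)⟩)
  | left a b A B C =>
    intro hb hg
    obtain ⟨h1, h2, h3, h4⟩ := bst_parts hb
    have hba : b < a := h4 a (by simp [keys])
    by_cases h5 : a ≤ s
    · left; left; exact h5
    · by_cases h6 : b ≤ s
      · right
        constructor
        · rcases Nat.lt_or_ge b s with q2 | q2
          · simp only [lo, if_neg (show ¬ a < s by omega), if_pos q2]
          · simp only [lo, if_neg (show ¬ a < s by omega), if_neg (show ¬ b < s by omega)]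
        · simp only [hi, if_neg (show ¬ s < b by omega), if_pos (show s < a by omega)]
      · left
        simp only [hasLE] at hg ⊢
        rcases hg with hg | ⟨h7, hg⟩ | ⟨h7, hg | ⟨h8, hg⟩ | ⟨h8, hg⟩⟩
        · omega
        · exact Or.inr (Or.inl ⟨by omega, Or.inr (Or.inl ⟨h7, hg⟩)⟩)
        · omega
        · exact Or.inr (Or.inl ⟨h8, Or.inr (Or.inr ⟨h7, hg⟩)⟩)
        · exact Or.inr (Or.inr ⟨h8, hg⟩)
  | inr a L R R' z h ih =>
    intro hb hg
    obtain ⟨h1, h2, h3, h4⟩ := bst_parts hb
    by_cases h5 : a ≤ s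
    · left; left; exact h5
    · left
      rcases hg with hg | ⟨h7, hg⟩ | ⟨h7, hg⟩
      · omega
      · exact Or.inr (Or.inl ⟨h7, hg⟩)
      · obtain ⟨k, hk, h6⟩ := hasLE_key hg
        have := h4 k hk
        omega
  | inl a L L' R z h ih =>
    intro hb hg
    obtain ⟨h1, h2, h3, h4⟩ := bst_parts hb
    by_cases h5 : a ≤ s
    · left; left; exact h5
    · rcases hg with hg | ⟨h7, hg⟩ | ⟨h7, hg⟩
      · omega
      · rcases ih h1 hg with h8 | ⟨h8, h9⟩
        · exact Or.inl (Or.inr (Or.inl ⟨h7, h8⟩))
        · right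
          constructor
          · simp only [lo, if_neg (show ¬ a < s by omega), h8]
          · simp only [hi, if_pos (show s < a by omega), h9]
      · exact Or.inl (Or.inr (Or.inr ⟨h7, hg⟩))

/-- a rotation which changes the side of the root is a rotation between the two sides -/
lemma rot_root {s : ℕ} {T T' : Tr} {z : ℕ} (h : Rot T T' z) (hb : IsBST T)
    (hr : ¬ (root T < s ↔ root T' < s)) : lo s T = lo s T' ∧ hi s T = hi s T' := by
  cases h with
  | right a b A B C =>
    obtain ⟨h1, h2, h3, h4⟩ := bst_parts hb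
    have hba : b < a := h3 b (by simp [keys])
    simp only [root] at hr
    have q1 : b < s := by omega
    have q2 : ¬ a < s := by omega
    constructor
    · simp only [lo, if_neg q2, if_pos q1]
    · rcases Nat.lt_or_ge s a with q3 | q3
      · simp only [hi, if_neg (show ¬ s < b by omega), if_pos q3]
      · simp only [hi, if_neg (show ¬ s < b by omega), if_neg (show ¬ s < a by omega)]
  | left a b A B C =>
    obtain ⟨h1, h2, h3, h4⟩ := bst_parts hb
    have hba : b < a := h4 a (by simp [keys])
    simp only [root] at hr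
    have q1 : b < s := by omega
    have q2 : ¬ a < s := by omega
    constructor
    · simp only [lo, if_neg q2, if_pos q1]
    · rcases Nat.lt_or_ge s a with q3 | q3
      · simp only [hi, if_neg (show ¬ s < b by omega), if_pos q3]
      · simp only [hi, if_neg (show ¬ s < b by omega), if_neg (show ¬ s < a by omega)]
  | inl a L L' R z h => exact absurd Iff.rfl hr
  | inr a L R R' z h => exact absurd Iff.rfl hr

/-- the root above a request on the other side -/
lemma extra_right {s v : ℕ} (hv : s < v) {T : Tr} (hb : IsBST T) (hn : T ≠ Tr.nil)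
    (hr : root T < s) : dep v (hi s T) + 1 ≤ dep v T := by
  cases T with
  | nil => exact absurd rfl hn
  | node a l r => exact hasLE_dep hv hb (Or.inl (le_of_lt hr))

lemma extra_left {s u : ℕ} (hu : u < s) {T : Tr} (hb : IsBST T) (hn : T ≠ Tr.nil)
    (hr : ¬ root T < s) : dep u (lo s T) + 1 ≤ dep u T := by
  cases T with
  | nil => exact absurd rfl hn
  | node a l r => exact hasGE_dep hu hb (Or.inl (not_lt.1 hr))

/-- a second one -/
lemma second_left {s u v : ℕ} (hu : u < s) (hv : s < v) {T : Tr} (hb : IsBST T)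
    (hk : v ∈ keys T) (hr : root T < s) (hur : root T < u) :
    dep v (hi s T) + 2 ≤ dep v T ∨ hasGE s u T := by
  cases T with
  | nil => simp [keys] at hk
  | node a l r =>
    obtain ⟨h1, h2, h3, h4⟩ := bst_parts hb
    simp only [root] at hr hur
    cases r with
    | nil =>
      simp only [keys, List.mem_append, List.mem_cons, List.not_mem_nil, or_false] at hk
      rcases hk with hk | hk
      · have := h3 v hk; omega
      · omega
    | node w l2 r2 =>
      rcases Nat.lt_or_ge w s with hw | hw
      · left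
        have e : hi s (Tr.node a l (Tr.node w l2 r2)) = hi s (Tr.node w l2 r2) := by
          rw [hi, if_neg (by omega)]
        rw [e, dep_right _ _ (by omega)]
        have := extra_right hv h2 (by simp) (show root (Tr.node w l2 r2) < s from hw)
        omega
      · right
        exact Or.inr (Or.inr ⟨hur, Or.inl hw⟩)

lemma second_right {s u v : ℕ} (hu : u < s) (hv : s < v) {T : Tr} (hb : IsBST T)
    (hk : u ∈ keys T) (hr : ¬ root T < s) (hur : root T = s ∨ v < root T) :
    dep u (lo s T) + 2 ≤ dep u T ∨ hasLE s v T := by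
  cases T with
  | nil => simp [keys] at hk
  | node a l r =>
    obtain ⟨h1, h2, h3, h4⟩ := bst_parts hb
    simp only [root] at hr hur
    rcases hur with hur | hur
    · right; left; omega
    cases l with
    | nil =>
      simp only [keys, List.nil_append, List.mem_cons] at hk
      rcases hk with hk | hk
      · omega
      · have := h4 u hk; omega
    | node w l2 r2 =>
      rcases Nat.lt_or_ge w (s + 1) with hw | hw
      · right
        exact Or.inr (Or.inl ⟨hur, Or.inl (by omega)⟩)
      · left
        have e : lo s (Tr.node a (Tr.node w l2 r2) r) = lo s (Tr.node w l2 r2) := by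
          rw [lo, if_neg (by omega)]
        rw [e, dep_left _ _ (by omega)]
        have := extra_left hu h1 (by simp) (show ¬ root (Tr.node w l2 r2) < s by
          simp only [root]; omega)
        omega

end Pool.Agent.Q133.SQ
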